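import Mathlib

set_option autoImplicit false

/-!
# Galois conjugation of roots of unity over a number field

Every `d!`-th power `u = t ^ d!`, `d = [K : ℚ]`, prime to `N`, is the exponent of an automorphism of the algebraic
closure of `K` on the `N`-th roots of unity.
-/

namespace Pool.Agent.N76.IR

open Polynomial IntermediateField Module

variable {K : Type*} [Field K] [NumberField K] {A : Type*} [Field A] [Algebra K A] [IsAlgClosure K A]


theorem totient_le {N : ℕ} [NeZero N] {ζ : A} (hζ : IsPrimitiveRoot ζ N) :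
    N.totient ≤ finrank ℚ K * (minpoly K ζ).natDegree := by
  have hA : Algebra.IsAlgebraic K A := IsAlgClosure.isAlgebraic
  have : CharZero A := charZero_of_injective_algebraMap (algebraMap K A).injective
  have hint : IsIntegral K ζ := (Algebra.IsAlgebraic.isAlgebraic ζ).isIntegral
  have h1 : (minpoly ℚ ζ).natDegree = N.totient := by
    rw [← cyclotomic_eq_minpoly_rat hζ (NeZero.pos N), natDegree_cyclotomic]
  have hfin : FiniteDimensional K K⟮ζ⟯ := adjoin.finiteDimensional hint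
  have h2 : finrank K K⟮ζ⟯ = (minpoly K ζ).natDegree := adjoin.finrank hint
  have h3 : finrank ℚ K * finrank K K⟮ζ⟯ = finrank ℚ K⟮ζ⟯ := finrank_mul_finrank ℚ K K⟮ζ⟯
  have h4 : FiniteDimensional ℚ K⟮ζ⟯ := FiniteDimensional.trans ℚ K K⟮ζ⟯
  have h5 : (minpoly ℚ (AdjoinSimple.gen K ζ)).natDegree ≤ finrank ℚ K⟮ζ⟯ := minpoly.natDegree_le _
  have h6 : minpoly ℚ (AdjoinSimple.gen K ζ) = minpoly ℚ ζ := by
    have h7 := minpoly.algebraMap_eq (A := ℚ) (B := K⟮ζ⟯) (B' := A) (algebraMap K⟮ζ⟯ A).injective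
      (AdjoinSimple.gen K ζ)
    rw [AdjoinSimple.algebraMap_gen] at h7
    exact h7.symm
  rw [h6, h1, ← h3, h2] at h5
  exact h5

theorem exists_aut {N : ℕ} [NeZero N] {ζ : A} (hζ : IsPrimitiveRoot ζ N) {t : ℕ} (ht : t.Coprime N) :
    ∃ τ : A ≃ₐ[K] A, τ ζ = ζ ^ (t ^ (finrank ℚ K).factorial) := by
  classical
  have hA : Algebra.IsAlgebraic K A := IsAlgClosure.isAlgebraic
  have hAc : IsAlgClosed A := IsAlgClosure.isAlgClosed K
  have hN : Normal K A := IsAlgClosure.normal K A
  have halg : IsAlgebraic K ζ := Algebra.IsAlgebraic.isAlgebraic ζ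
  set χ := hζ.autToPow K with hχ
  set H : Subgroup (ZMod N)ˣ := χ.range with hH
  have hcard : (minpoly K ζ).natDegree ≤ Nat.card H := by
    have h1 : Fintype.card ((minpoly K ζ).rootSet A) = (minpoly K ζ).natDegree :=
      card_rootSet_eq_natDegree (minpoly.irreducible halg.isIntegral).separable (IsAlgClosed.splits _)
    rw [← h1, ← Nat.card_eq_fintype_card]
    have h2 : ∀ x : (minpoly K ζ).rootSet A, ∃ τ : A ≃ₐ[K] A, τ ζ = x := by
      rintro ⟨x, hx⟩
      rw [mem_rootSet] at hx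
      exact minpoly.exists_algEquiv_of_root' halg hx.2
    choose τ hτ using h2
    refine Nat.card_le_card_of_injective (fun x => (⟨χ (τ x), ⟨τ x, rfl⟩⟩ : H)) fun x y hxy => ?_
    have h3 : χ (τ x) = χ (τ y) := congrArg Subtype.val hxy
    have h4 := hζ.autToPow_spec K (τ x)
    have h5 := hζ.autToPow_spec K (τ y)
    rw [← hχ, h3] at h4
    rw [← hχ] at h5
    apply Subtype.ext
    rw [← hτ x, ← hτ y, ← h4, ← h5]
  have htot : N.totient ≤ finrank ℚ K * Nat.card H :=
    (totient_le hζ).trans (Nat.mul_le_mul_left _ hcard)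
  have hidx : H.index * Nat.card H = N.totient := by
    rw [Subgroup.index_mul_card, Nat.card_eq_fintype_card, ZMod.card_units_eq_totient]
  have hpos : 0 < Nat.card H := Nat.card_pos
  have hle : H.index ≤ finrank ℚ K := by
    rw [← hidx] at htot
    exact Nat.le_of_mul_le_mul_right htot hpos
  have hne : H.index ≠ 0 := Subgroup.index_ne_zero_of_finite
  set u : (ZMod N)ˣ := ZMod.unitOfCoprime t ht with hu
  have h1 : u ^ (finrank ℚ K).factorial ∈ H := by
    obtain ⟨c, hc⟩ := Nat.dvd_factorial (Nat.pos_of_ne_zero hne) hle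
    rw [hc, pow_mul]
    exact H.pow_mem (Subgroup.pow_index_mem H u) c
  obtain ⟨τ, hτ⟩ := h1
  refine ⟨τ, ?_⟩
  have h2 := hζ.autToPow_spec K τ
  rw [← hχ, hτ] at h2
  rw [← h2]
  have h3 : (((u ^ (finrank ℚ K).factorial : (ZMod N)ˣ) : ZMod N)).val = t ^ (finrank ℚ K).factorial % N := by
    rw [Units.val_pow_eq_pow_val, hu, ZMod.coe_unitOfCoprime, ← Nat.cast_pow, ZMod.val_natCast]
  rw [h3]
  exact (pow_mod_orderOf ζ (t ^ (finrank ℚ K).factorial) ▸ by rw [hζ.eq_orderOf])

end Pool.Agent.N76.IR
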