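import Pool.Agent.N686.PF.Main

set_option autoImplicit false

/-!
# Conjugation of roots of unity, for orders prime to the discriminant

Let `N` be prime to the discriminant of `K`. For any two embeddings `s₀` of `L` and `σ` of `K` and any `t` prime to `N`
there is an embedding `s` of `L` above `σ` which raises the `N`-th roots of unity seen by `s₀` to the power `t`.
-/

namespace Pool.Agent.N76.IR

open Polynomial IntermediateField Module
open Pool.Agent.TH826.MK (circ)
open Pool.Agent.Y775.CC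

section
variable {K : Type*} [Field K] [NumberField K] {A : Type*} [Field A] [Algebra K A] [IsAlgClosure K A]

/-- the cyclotomic polynomial stays irreducible -/
theorem totient_le' {N : ℕ} [NeZero N] (hN : N.Coprime (NumberField.discr K).natAbs) {ζ : A}
    (hζ : IsPrimitiveRoot ζ N) : N.totient ≤ (minpoly K ζ).natDegree := by
  have hA : Algebra.IsAlgebraic K A := IsAlgClosure.isAlgebraic
  have : CharZero A := charZero_of_injective_algebraMap (algebraMap K A).injective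
  have hint : IsIntegral K ζ := (Algebra.IsAlgebraic.isAlgebraic ζ).isIntegral
  have hfin : FiniteDimensional K K⟮ζ⟯ := adjoin.finiteDimensional hint
  have h2 : finrank K K⟮ζ⟯ = (minpoly K ζ).natDegree := adjoin.finrank hint
  have h3 : finrank ℚ K * finrank K K⟮ζ⟯ = finrank ℚ K⟮ζ⟯ := finrank_mul_finrank ℚ K K⟮ζ⟯
  have h4 : FiniteDimensional ℚ K⟮ζ⟯ := FiniteDimensional.trans ℚ K K⟮ζ⟯
  have hNF : NumberField K⟮ζ⟯ := { to_charZero := inferInstance, to_finiteDimensional := h4 }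
  have hζ' : IsPrimitiveRoot (AdjoinSimple.gen K ζ) N :=
    IsPrimitiveRoot.of_map_of_injective (f := algebraMap K⟮ζ⟯ A)
      (by rw [AdjoinSimple.algebraMap_gen]; exact hζ) (algebraMap K⟮ζ⟯ A).injective
  set K₁ : IntermediateField ℚ K⟮ζ⟯ := ℚ⟮AdjoinSimple.gen K ζ⟯ with hK₁
  have hcyc : IsCyclotomicExtension {N} ℚ K₁ := hζ'.intermediateField_adjoin_isCyclotomicExtension ℚ
  have hgal : IsGalois ℚ K₁ := IsCyclotomicExtension.isGalois {N} ℚ K₁
  set K₂ : IntermediateField ℚ K⟮ζ⟯ := (IsScalarTower.toAlgHom ℚ K K⟮ζ⟯).fieldRange with hK₂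
  have e : K ≃ₐ[ℚ] K₂ := AlgEquiv.ofInjectiveField _
  have hd₂ : NumberField.discr K₂ = NumberField.discr K := (NumberField.discr_eq_discr_of_algEquiv K e).symm
  have hd₁ : (NumberField.discr K₁).natAbs ∣ N ^ N.totient := by
    rw [IsCyclotomicExtension.Rat.natAbs_discr N K₁]
    exact Nat.div_dvd_of_dvd (Nat.prod_primeFactors_pow_totient_ediv_dvd (NeZero.pos N))
  have hcop : IsCoprime (NumberField.discr K₁) (NumberField.discr K₂) := by
    rw [Int.isCoprime_iff_nat_coprime, hd₂]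
    exact Nat.Coprime.coprime_dvd_left hd₁ (Nat.Coprime.pow_left _ hN)
  have hdis := NumberField.linearDisjoint_of_isGalois_isCoprime_discr _ K₁ K₂ hcop
  have h5 := hdis.finrank_sup
  have h6 : finrank ℚ K₁ = N.totient := IsCyclotomicExtension.Rat.finrank N K₁
  have h7 : finrank ℚ K₂ = finrank ℚ K := e.toLinearEquiv.finrank_eq.symm
  have h8 : finrank ℚ (K₁ ⊔ K₂ : IntermediateField ℚ K⟮ζ⟯) ≤ finrank ℚ K⟮ζ⟯ :=
    Submodule.finrank_le (K₁ ⊔ K₂ : IntermediateField ℚ K⟮ζ⟯).toSubmodule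
  rw [h5, h6, h7, ← h3, h2, mul_comm] at h8
  exact Nat.le_of_mul_le_mul_left h8 finrank_pos

theorem exists_aut' {N : ℕ} [NeZero N] (hN : N.Coprime (NumberField.discr K).natAbs) {ζ : A}
    (hζ : IsPrimitiveRoot ζ N) {t : ℕ} (ht : t.Coprime N) : ∃ τ : A ≃ₐ[K] A, τ ζ = ζ ^ t := by
  classical
  have hA : Algebra.IsAlgebraic K A := IsAlgClosure.isAlgebraic
  have hAc : IsAlgClosed A := IsAlgClosure.isAlgClosed K
  have hNo : Normal K A := IsAlgClosure.normal K A
  have halg : IsAlgebraic K ζ := Algebra.IsAlgebraic.isAlgebraic ζ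
  set χ := hζ.autToPow K with hχ
  set H : Subgroup (ZMod N)ˣ := χ.range with hH
  have hcard : (minpoly K ζ).natDegree ≤ Nat.card H := by
    have h1 : Fintype.card ((minpoly K ζ).rootSet A) = (minpoly K ζ).natDegree :=
      card_rootSet_eq_natDegree (minpoly.irreducible halg.isIntegral).separable (IsAlgClosed.splits _)
    rw [← h1, ← Nat.card_eq_fintype_card]
    have h2 : ∀ x : (minpoly K ζ).rootSet A, ∃ τ : A ≃ₐ[K] A, τ ζ = x := by
      rintro ⟨x, hx⟩
      rw [mem_rootSet] at hx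
      exact minpoly.exists_algEquiv_of_root' halg hx.2
    choose τ hτ using h2
    refine Nat.card_le_card_of_injective (fun x => (⟨χ (τ x), ⟨τ x, rfl⟩⟩ : H)) fun x y hxy => ?_
    have h3 : χ (τ x) = χ (τ y) := congrArg Subtype.val hxy
    have h4 := hζ.autToPow_spec K (τ x)
    have h5 := hζ.autToPow_spec K (τ y)
    rw [← hχ, h3] at h4
    rw [← hχ] at h5
    apply Subtype.ext
    rw [← hτ x, ← hτ y, ← h4, ← h5]
  have htop : H = ⊤ := by
    apply Subgroup.eq_top_of_le_card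
    rw [Nat.card_eq_fintype_card (α := (ZMod N)ˣ), ZMod.card_units_eq_totient]
    exact (totient_le' hN hζ).trans hcard
  set u : (ZMod N)ˣ := ZMod.unitOfCoprime t ht with hu
  have h1 : u ∈ H := by
    rw [htop]
    exact Subgroup.mem_top u
  obtain ⟨τ, hτ⟩ := h1
  refine ⟨τ, ?_⟩
  have h2 := hζ.autToPow_spec K τ
  rw [← hχ, hτ] at h2
  rw [← h2]
  have h3 : (u : ZMod N).val = t % N := by
    rw [hu, ZMod.coe_unitOfCoprime, ZMod.val_natCast]
  rw [h3]
  exact (pow_mod_orderOf ζ t ▸ by rw [hζ.eq_orderOf])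

end

/-- powers of the root of unity -/
theorem circ_zpow' {N : ℕ} (j : ℤ) (t : ℕ) : (circ 1 (1 / N)) ^ ((t : ℤ) * j) = circ 1 ((t : ℝ) * ((j : ℝ) / N)) := by
  unfold circ
  rw [Complex.ofReal_one, one_mul, one_mul, ← Complex.exp_int_mul]
  congr 1
  push_cast
  ring

theorem prim_circ {N : ℕ} [NeZero N] : IsPrimitiveRoot (circ 1 (1 / (N : ℝ))) N := by
  have h2 := Complex.isPrimitiveRoot_exp N (NeZero.ne N)
  have e : circ 1 (1 / (N : ℝ)) = Complex.exp (2 * Real.pi * Complex.I / N) := by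
    unfold circ
    rw [Complex.ofReal_one, one_mul]
    congr 1
    push_cast
    ring
  rw [e]
  exact h2

/-- a root of unity in an algebraically closed field -/
theorem exists_zeta {A : Type*} [Field A] [IsAlgClosed A] (ι : A →+* ℂ) {N : ℕ} [NeZero N] {ξ : ℂ} (hξ : ξ ^ N = 1) :
    ∃ ζ : A, ι ζ = ξ := by
  have hsp : (X ^ N - 1 : A[X]).Splits := IsAlgClosed.splits _
  have h1 : ((X ^ N - 1 : A[X]).map ι).IsRoot ξ := by
    rw [Polynomial.map_sub, Polynomial.map_pow, Polynomial.map_X, Polynomial.map_one, IsRoot.def, eval_sub,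
      eval_pow, eval_X, eval_one, sub_eq_zero, hξ]
  obtain ⟨ζ, h2⟩ := hsp.mem_range_of_isRoot (X_pow_sub_C_ne_zero (NeZero.pos N) 1) h1
  exact ⟨ζ, h2⟩

/-- **The embeddings.** -/
theorem exists_embedding' {K : Type*} [Field K] [NumberField K] {L : Type*} [Field L] [NumberField L]
    [Algebra K L] (s₀ : L →+* ℂ) (σ : K →+* ℂ) {N : ℕ} [NeZero N] (hN : N.Coprime (NumberField.discr K).natAbs)
    {t : ℕ} (ht : t.Coprime N) :
    ∃ s : L →+* ℂ, s.comp (algebraMap K L) = σ ∧
      ∀ (y : L) (j : ℤ), s₀ y = uu 1 ((j : ℝ) / N) → s y = uu 1 ((t : ℝ) * ((j : ℝ) / N)) := by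
  classical
  have hKL : Algebra.IsAlgebraic K L := by
    have : Algebra.IsAlgebraic ℚ L := inferInstance
    exact Algebra.IsAlgebraic.tower_top (K := ℚ) K
  have hLA : Algebra.IsAlgebraic L (AlgebraicClosure L) := inferInstance
  have hKA : Algebra.IsAlgebraic K (AlgebraicClosure L) := Algebra.IsAlgebraic.trans K L (AlgebraicClosure L)
  have hcl : IsAlgClosure K (AlgebraicClosure L) := ⟨inferInstance, hKA⟩
  -- extension of `s₀`
  obtain ⟨ι₀, hι₀⟩ : ∃ ι₀ : AlgebraicClosure L →+* ℂ, ∀ y : L, ι₀ (algebraMap L _ y) = s₀ y := by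
    let _ : Algebra L ℂ := s₀.toAlgebra
    exact ⟨(IsAlgClosed.lift : AlgebraicClosure L →ₐ[L] ℂ),
      fun y => (IsAlgClosed.lift : AlgebraicClosure L →ₐ[L] ℂ).commutes y⟩
  -- an extension of `σ`
  obtain ⟨ι, hι⟩ : ∃ ι : AlgebraicClosure L →+* ℂ, ∀ y : K, ι (algebraMap K _ y) = σ y := by
    let _ : Algebra K ℂ := σ.toAlgebra
    exact ⟨(IsAlgClosed.lift : AlgebraicClosure L →ₐ[K] ℂ),
      fun y => (IsAlgClosed.lift : AlgebraicClosure L →ₐ[K] ℂ).commutes y⟩
  obtain ⟨ζ, hζ⟩ := exists_zeta ι₀ (N := N) (ξ := circ 1 (1 / N)) prim_circ.pow_eq_one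
  have hprim : IsPrimitiveRoot ζ N := by
    have h1 : IsPrimitiveRoot (circ 1 (1 / (N : ℝ))) N := prim_circ
    rw [← hζ] at h1
    exact IsPrimitiveRoot.of_map_of_injective h1 ι₀.injective
  -- the root of unity under `ι`
  have hprim' : IsPrimitiveRoot (ι ζ) N := hprim.map_of_injective ι.injective
  obtain ⟨r, -, hr, hrζ⟩ := (prim_circ (N := N)).isPrimitiveRoot_iff.1 hprim'
  -- the exponent
  obtain ⟨r', hr', hrr⟩ : ∃ r' : ℕ, r'.Coprime N ∧ (r' * r : ℕ) ≡ t [MOD N] := by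
    set u : (ZMod N)ˣ := ZMod.unitOfCoprime r hr with hu
    set v : (ZMod N)ˣ := ZMod.unitOfCoprime t ht with hv
    refine ⟨((v * u⁻¹ : (ZMod N)ˣ) : ZMod N).val, ?_, ?_⟩
    · exact ZMod.val_coe_unit_coprime _
    · rw [← ZMod.natCast_eq_natCast_iff, Nat.cast_mul, ZMod.natCast_val, ZMod.cast_id]
      have h1 : (r : ZMod N) = (u : ZMod N) := (ZMod.coe_unitOfCoprime r hr).symm
      have h2 : (t : ZMod N) = (v : ZMod N) := (ZMod.coe_unitOfCoprime t ht).symm
      rw [h1, h2, ← Units.val_mul, inv_mul_cancel_right]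
  obtain ⟨τ, hτ⟩ := exists_aut' (K := K) hN hprim hr'
  refine ⟨((ι.comp ((τ : AlgebraicClosure L ≃ₐ[K] AlgebraicClosure L) :
    AlgebraicClosure L →+* AlgebraicClosure L)).comp (algebraMap L (AlgebraicClosure L))), ?_, ?_⟩
  · ext x
    show ι (τ (algebraMap L (AlgebraicClosure L) (algebraMap K L x))) = σ x
    rw [← IsScalarTower.algebraMap_apply, τ.commutes, hι]
  · intro y j hy
    have h1 : algebraMap L (AlgebraicClosure L) y = ζ ^ j + ζ ^ (-j) := by
      apply ι₀.injective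
      rw [hι₀, hy, map_add, map_zpow₀, map_zpow₀, hζ]
      have h2 := circ_zpow' (N := N) j 1
      rw [Nat.cast_one, Nat.cast_one, one_mul, one_mul] at h2
      rw [zpow_neg, h2]
      rfl
    show ι (τ (algebraMap L (AlgebraicClosure L) y)) = _
    have h3 : ι (τ ζ) = circ 1 (1 / N) ^ t := by
      rw [hτ, map_pow, ← hrζ, ← pow_mul, mul_comm r r']
      have h4 : (circ 1 (1 / (N : ℝ))) ^ (r' * r) = circ 1 (1 / (N : ℝ)) ^ (t : ℕ) := by
        have h5 := (prim_circ (N := N)).eq_orderOf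
        have h6 : (r' * r) % N = t % N := hrr
        rw [← pow_mod_orderOf, ← pow_mod_orderOf (circ 1 (1 / (N : ℝ))) t, ← h5, h6]
      exact h4
    rw [h1, map_add, map_add, map_zpow₀, map_zpow₀, map_zpow₀, map_zpow₀, h3, ← zpow_natCast, ← zpow_mul,
      ← zpow_mul, circ_zpow', mul_neg, zpow_neg, circ_zpow']
    rfl

end Pool.Agent.N76.IR
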