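import Pool.Agent.N76.IR.Cx

set_option autoImplicit false

/-!
# The potential of an arc is not constant on another arc: the vertical strip
-/

namespace Pool.Agent.N76.IR

open Polynomial MeasureTheory Set Filter Topology Complex
open Pool.Agent.Y775.CC
open Pool.Agent.TH826.MK (circ)
open scoped ComplexConjugate Interval

/-- the vertical strip -/
def Strip (y₀ δ : ℝ) : Set ℂ := Complex.re ⁻¹' Ioo (y₀ - δ) (y₀ + δ)

theorem mem_Strip {y₀ δ : ℝ} {y : ℂ} : y ∈ Strip y₀ δ ↔ |y.re - y₀| < δ := by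
  unfold Strip
  rw [mem_preimage, mem_Ioo, abs_lt]
  constructor
  · rintro ⟨h1, h2⟩
    constructor <;> linarith
  · rintro ⟨h1, h2⟩
    constructor <;> linarith

theorem isOpen_Strip (y₀ δ : ℝ) : IsOpen (Strip y₀ δ) := isOpen_Ioo.preimage Complex.continuous_re

theorem convex_Strip (y₀ δ : ℝ) : Convex ℝ (Strip y₀ δ) :=
  (convex_Ioo (y₀ - δ) (y₀ + δ)).linear_preimage Complex.reLm

variable {G : ℂ[X]} {n : ℕ} {V : Set ℂ} {φ : Fin n → ℂ → ℂ}

/-- **The branch on a vertical strip.** -/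
theorem exists_strip (H : Branches G V φ) (hdeg : 0 < G.natDegree) (k : Fin n) :
    ∃ (y₀ δ : ℝ) (f : ℂ → ℂ), 0 < δ ∧ (∀ x : ℝ, |x - y₀| < δ → |x| ≤ 2) ∧ DifferentiableOn ℂ f (Strip y₀ δ) ∧
      (∀ y ∈ Strip y₀ δ, G.eval (f y) = y) ∧ ∀ x : ℝ, |x - y₀| < δ → f x = φ k x := by
  classical
  -- the centre of the strip
  set Z : Set ℂ := (fun x => G.eval x) '' {x | (derivative G).eval x = 0} with hZ
  have hZf : Z.Finite := finite_crit hdeg
  set Zr : Set ℝ := Complex.re '' Z with hZr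
  have hZrf : Zr.Finite := hZf.image _
  obtain ⟨y₀, hy₀, hy₀Z⟩ := ((Ioo_infinite (show (-1 : ℝ) < 1 by norm_num)).sdiff hZrf).nonempty
  obtain ⟨ε, hε, h1⟩ := Metric.isOpen_iff.1 hZrf.isClosed.isOpen_compl y₀ hy₀Z
  set δ : ℝ := min ε 1 with hδ
  have hδ0 : 0 < δ := lt_min hε one_pos
  have hδ1 : δ ≤ 1 := min_le_right _ _
  have hW0 : (y₀ : ℂ) ∈ Strip y₀ δ := by
    rw [mem_Strip]
    simpa using hδ0
  have hreal : ∀ x : ℝ, |x - y₀| < δ → |x| ≤ 2 := by
    intro x hx
    have h2 := abs_lt.1 hx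
    rw [abs_le]
    constructor
    · have := hy₀.1; linarith
    · have := hy₀.2; linarith
  have hcrit : ∀ x, (derivative G).eval x = 0 → G.eval x ∉ Strip y₀ δ := by
    intro x hx hW
    rw [mem_Strip] at hW
    have h2 : (G.eval x).re ∈ Metric.ball y₀ ε := by
      rw [Metric.mem_ball, Real.dist_eq]
      exact hW.trans_le (min_le_left _ _)
    exact h1 h2 ⟨_, ⟨x, hx, rfl⟩, rfl⟩
  -- the lift
  have : SimplyConnectedSpace (Strip y₀ δ) := by
    have : ContractibleSpace (Strip y₀ δ) := (convex_Strip y₀ δ).contractibleSpace ⟨y₀, hW0⟩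
    exact SimplyConnectedSpace.ofContractible _
  have : LocallyPathConnectedSpace (Strip y₀ δ) := (isOpen_Strip y₀ δ).locallyPathConnectedSpace
  have hcov : IsCoveringMapOn (fun y => G.eval y) (Strip y₀ δ) :=
    G.isCoveringMapOn_eval.mono fun u hu => by
      rintro ⟨y, hy, hyu⟩
      exact hcrit y hy (by
        have hyu' : G.eval y = u := hyu
        rw [hyu']
        exact hu)
  set ι : C(Strip y₀ δ, ℂ) := ⟨Subtype.val, continuous_subtype_val⟩ with hι
  have hy0V : (y₀ : ℂ) ∈ V := H.mem _ (hreal y₀ (by simpa using hδ0))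
  obtain ⟨F, ⟨hF0, hF⟩, -⟩ := hcov.existsUnique_continuousMap_lifts ι (a₀ := ⟨(y₀ : ℂ), hW0⟩)
    (e₀ := φ k y₀) (H.eval_branch k hy0V) fun a => a.2
  have hFev : ∀ u : Strip y₀ δ, G.eval (F u) = u := fun u => congrFun hF u
  set f : ℂ → ℂ := fun u => if h : u ∈ Strip y₀ δ then F ⟨u, h⟩ else 0 with hf
  have hfW : ∀ u (hu : u ∈ Strip y₀ δ), f u = F ⟨u, hu⟩ := fun u hu => dif_pos hu
  have hfev : ∀ u ∈ Strip y₀ δ, G.eval (f u) = u := fun u hu => by
    rw [hfW u hu]
    exact hFev ⟨u, hu⟩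
  have hfc : ContinuousOn f (Strip y₀ δ) := by
    rw [continuousOn_iff_continuous_domRestrict]
    have e : (Strip y₀ δ).domRestrict f = F := by
      funext a
      exact hfW a a.2
    rw [e]
    exact F.continuous
  have hfd : DifferentiableOn ℂ f (Strip y₀ δ) := by
    intro u hu
    have hd : (derivative G).eval (f u) ≠ 0 := by
      intro h
      apply hcrit _ h
      rw [hfev u hu]
      exact hu
    have hcont : ContinuousAt f u := hfc.continuousAt ((isOpen_Strip y₀ δ).mem_nhds hu)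
    refine (HasDerivAt.of_local_left_inverse hcont (G.hasDerivAt (f u)) hd ?_).differentiableAt.differentiableWithinAt
    filter_upwards [(isOpen_Strip y₀ δ).mem_nhds hu] with w hw
    exact hfev w hw
  refine ⟨y₀, δ, f, hδ0, hreal, hfd, hfev, fun x hx => ?_⟩
  -- comparison with the branch
  set W' : Set ℂ := V ∩ Strip y₀ δ with hW'
  have hW'o : IsOpen W' := H.isOpen.inter (isOpen_Strip y₀ δ)
  have hW'c : IsPreconnected W' := (H.convex.inter (convex_Strip y₀ δ)).isPreconnected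
  have hf1 : AnalyticOnNhd ℂ f W' := (hfd.mono inter_subset_right).analyticOnNhd hW'o
  have hf2 : AnalyticOnNhd ℂ (φ k) W' := ((H.differentiableOn k).mono inter_subset_left).analyticOnNhd hW'o
  have hy0W : (y₀ : ℂ) ∈ W' := ⟨hy0V, hW0⟩
  have hfy0 : f y₀ = φ k y₀ := by
    rw [hfW _ hW0]
    exact hF0
  have hev : f =ᶠ[𝓝 (y₀ : ℂ)] φ k := by
    have h2 : ∀ j ∈ Finset.univ.erase k, ∀ᶠ y in 𝓝 (y₀ : ℂ), f y - φ j y ≠ 0 := by
      intro j hj
      have h3 : ContinuousAt (fun y => f y - φ j y) (y₀ : ℂ) :=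
        (hf1 _ hy0W).continuousAt.sub (H.analyticAt j hy0V).continuousAt
      refine h3.eventually_ne ?_
      rw [hfy0, sub_ne_zero]
      intro h4
      exact Finset.ne_of_mem_erase hj (H.inj _ hy0V h4).symm
    have h3 := (Finset.eventually_all _).2 h2
    filter_upwards [h3, hW'o.mem_nhds hy0W] with y h4 h5
    have h6 := H.eval_sub_eq h5.1 (f y)
    rw [hfev y h5.2, sub_self, ← Finset.mul_prod_erase _ _ (Finset.mem_univ k)] at h6
    have h7 : ∏ j ∈ Finset.univ.erase k, (f y - φ j y) ≠ 0 := Finset.prod_ne_zero_iff.2 h4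
    exact sub_eq_zero.1 ((mul_eq_zero.1 h6.symm).resolve_right h7)
  have hxW : (x : ℂ) ∈ W' := ⟨H.mem _ (hreal x hx), by rw [mem_Strip]; simpa using hx⟩
  exact hf1.eqOn_of_preconnected_of_eventuallyEq hf2 hW'c hy0W hev hxW

/-- the points of the interval -/
theorem exists_uu {x : ℝ} (hx : |x| ≤ 2) : ∃ θ : ℝ, uu 1 θ = x := by
  have h1 := abs_le.1 hx
  refine ⟨Real.arccos (x / 2) / (2 * Real.pi), ?_⟩
  rw [uu_one, show 2 * Real.pi * (Real.arccos (x / 2) / (2 * Real.pi)) = Real.arccos (x / 2) by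
    field_simp, Real.cos_arccos (by linarith) (by linarith)]
  push_cast
  ring

theorem uu_real (θ : ℝ) : ∃ x : ℝ, |x| ≤ 2 ∧ uu 1 θ = x := by
  refine ⟨2 * Real.cos (2 * Real.pi * θ), ?_, uu_one θ⟩
  rw [abs_mul, abs_two]
  have := Real.abs_cos_le_one (2 * Real.pi * θ)
  linarith

/-- the potential far away -/
theorem Us_near {c : ℝ → ℂ} (hc : Continuous c) {M : ℝ} (hM : ∀ t ∈ Icc (0 : ℝ) 1, ‖c t‖ ≤ M) {x : ℂ} (hx : 2 * M ≤ ‖x‖)
    (hx0 : 0 < ‖x‖) : |Us c x - Real.log ‖x‖| ≤ Real.log 2 := by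
  have h1 : ∀ t ∈ Icc (0 : ℝ) 1, ‖x‖ / 2 ≤ ‖x - c t‖ := by
    intro t ht
    have h2 := norm_sub_norm_le x (c t)
    have h3 := hM t ht
    linarith
  have h1' : ∀ t ∈ Icc (0 : ℝ) 1, ‖x - c t‖ ≤ ‖x‖ * 2 := by
    intro t ht
    have h2 := norm_sub_le x (c t)
    have h3 := hM t ht
    linarith
  have hpos : 0 < ‖x‖ / 2 := by linarith
  have hint : IntervalIntegrable (fun t => Real.log ‖x - c t‖) volume 0 1 := by
    refine ContinuousOn.intervalIntegrable ?_
    refine ContinuousOn.log (continuousOn_const.sub hc.continuousOn).norm fun t ht => ?_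
    rw [uIcc_of_le zero_le_one] at ht
    exact (hpos.trans_le (h1 t ht)).ne'
  have h2 : (∫ _ in (0 : ℝ)..1, Real.log (‖x‖ / 2)) ≤ Us c x := by
    unfold Us
    exact intervalIntegral.integral_mono_on zero_le_one intervalIntegrable_const hint fun t ht =>
      Real.log_le_log hpos (h1 t ht)
  have h3 : Us c x ≤ (∫ _ in (0 : ℝ)..1, Real.log (‖x‖ * 2)) := by
    unfold Us
    exact intervalIntegral.integral_mono_on zero_le_one hint intervalIntegrable_const fun t ht =>
      Real.log_le_log (hpos.trans_le (h1 t ht)) (h1' t ht)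
  rw [intervalIntegral.integral_const, sub_zero, one_smul, Real.log_div hx0.ne' two_ne_zero] at h2
  rw [intervalIntegral.integral_const, sub_zero, one_smul, Real.log_mul hx0.ne' two_ne_zero] at h3
  rw [abs_le]
  constructor <;> linarith

/-- **A combination of potentials of arcs is not constant on another arc**, if the sum of the coefficients is
positive. -/
theorem comb_pos (H : Branches G V φ) (hdeg : 0 < G.natDegree) (k : Fin n) (d : Fin n → ℝ)
    (hd : 0 < ∑ l ∈ Finset.univ.erase k, d l) :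
    ∃ θ : ℝ, ∑ l ∈ Finset.univ.erase k, d l * Jm φ l k θ ≠ ∑ l ∈ Finset.univ.erase k, d l * Jm φ l k 0 := by
  classical
  by_contra hcon
  push Not at hcon
  set E : Finset (Fin n) := Finset.univ.erase k with hE
  set c : Fin n → ℝ → ℂ := fun l t => φ l (uu 1 t) with hc
  have hcc : ∀ l, Continuous (c l) := fun l => continuous_branch H l
  set U : ℂ → ℝ := fun x => ∑ l ∈ E, d l * Us (c l) x with hU
  set S : ℂ → ℂ := fun x => ∑ l ∈ E, (d l : ℂ) * Ss (c l) x with hS
  have hJU : ∀ θ, ∑ l ∈ E, d l * Jm φ l k θ = U (φ k (uu 1 θ)) := by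
    intro θ
    refine Finset.sum_congr rfl fun l hl => ?_
    have hlk : l ≠ k := Finset.ne_of_mem_erase hl
    congr 1
    unfold Jm Us
    refine intervalIntegral.integral_congr fun t _ => ?_
    show Real.log ‖psi φ l k (uu 1 θ) (uu 1 t)‖ = Real.log ‖φ k (uu 1 θ) - c l t‖
    rw [psi_ne hlk, norm_sub_rev]
  have hUpath : ∀ {p : ℝ → ℂ} {p' : ℂ} {s : ℝ}, HasDerivAt p p' s → (∀ l ∈ E, ∀ t, p s ≠ c l t) →
      HasDerivAt (fun s => U (p s)) (S (p s) * p').re s := by
    intro p p' s hp hx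
    have h1 : HasDerivAt (fun s => ∑ l ∈ E, d l * Us (c l) (p s)) (∑ l ∈ E, d l * (Ss (c l) (p s) * p').re) s :=
      HasDerivAt.fun_sum fun l hl => (Us_path (hcc l) hp fun t _ => hx l hl t).const_mul (d l)
    refine h1.congr_deriv ?_
    rw [hS]
    simp only
    rw [Finset.sum_mul, Complex.re_sum]
    refine Finset.sum_congr rfl fun l _ => ?_
    rw [mul_assoc, Complex.re_ofReal_mul]
  obtain ⟨y₀, δ, f, hδ, hreal, hfd, hfev, hfφ⟩ := exists_strip H hdeg k
  have hconst : ∀ x : ℝ, |x - y₀| < δ → U (f x) = ∑ l ∈ E, d l * Jm φ l k 0 := by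
    intro x hx
    obtain ⟨θ, hθ⟩ := exists_uu (hreal x hx)
    rw [hfφ x hx, ← hθ, ← hJU, hcon]
  -- the strip avoids the arcs
  have havoid : ∀ y ∈ Strip y₀ δ, ∀ l ∈ E, ∀ t : ℝ, f y ≠ c l t := by
    intro y hy l hl t h1
    have hlk : l ≠ k := Finset.ne_of_mem_erase hl
    obtain ⟨x, hx2, hx⟩ := uu_real t
    have h2 : y = x := by
      rw [← hx, ← H.eval_branch l (H.uu_mem t), ← hfev y hy, h1]
    have h3 : |x - y₀| < δ := by
      rw [h2, mem_Strip] at hy
      simpa using hy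
    rw [h2, hfφ x h3] at h1
    exact hlk (H.eq_of_eq (H.mem _ hx2) (H.uu_mem t) h1).1.symm
  set Ψ : ℂ → ℂ := fun y => S (f y) * deriv f y with hΨ
  have hWo := isOpen_Strip y₀ δ
  have hΨd : DifferentiableOn ℂ Ψ (Strip y₀ δ) := by
    intro y hy
    have h1 : DifferentiableAt ℂ (fun y => S (f y)) y := by
      have h3 : DifferentiableAt ℂ (fun y => ∑ l ∈ E, (d l : ℂ) * Ss (c l) (f y)) y := by
        refine DifferentiableAt.fun_sum fun l hl => ?_
        have h4 : DifferentiableAt ℂ (fun y => Ss (c l) (f y)) y :=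
          (Ss_diff (hcc l) fun t _ => havoid y hy l hl t).comp y (hfd.differentiableAt (hWo.mem_nhds hy))
        exact h4.const_mul _
      exact h3
    have h2 : DifferentiableAt ℂ (deriv f) y := (hfd.deriv hWo).differentiableAt (hWo.mem_nhds hy)
    exact (h1.mul h2).differentiableWithinAt
  have hconjW : ∀ y, y ∈ Strip y₀ δ → conj y ∈ Strip y₀ δ := by
    intro y hy
    rw [mem_Strip] at hy ⊢
    rwa [Complex.conj_re]
  have hΨr : ∀ x : ℝ, |x - y₀| < δ → (Ψ x).re = 0 := by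
    intro x hx
    have hxW : (x : ℂ) ∈ Strip y₀ δ := by rw [mem_Strip]; simpa using hx
    have h1 : HasDerivAt (fun s : ℝ => f (s : ℂ)) (deriv f x) x :=
      ((hfd.differentiableAt (hWo.mem_nhds hxW)).hasDerivAt).comp_ofReal
    have h2 := hUpath h1 fun l hl t => havoid x hxW l hl t
    have h3 : (fun s : ℝ => U (f (s : ℂ))) =ᶠ[𝓝 x] fun _ => ∑ l ∈ E, d l * Jm φ l k 0 := by
      have h4 : {s : ℝ | |s - y₀| < δ} ∈ 𝓝 x := by
        refine IsOpen.mem_nhds ?_ hx
        exact isOpen_lt (continuous_abs.comp (continuous_id.sub continuous_const)) continuous_const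
      filter_upwards [h4] with s hs
      exact hconst s hs
    have h5 : HasDerivAt (fun _ : ℝ => ∑ l ∈ E, d l * Jm φ l k 0) (S (f x) * deriv f x).re x :=
      h2.congr_of_eventuallyEq h3.symm
    exact h5.unique (hasDerivAt_const x _)
  -- reflection
  have hsym : ∀ y ∈ Strip y₀ δ, Ψ y = -conj (Ψ (conj y)) := by
    have h1 : AnalyticOnNhd ℂ Ψ (Strip y₀ δ) := hΨd.analyticOnNhd hWo
    have h2 : AnalyticOnNhd ℂ (fun y => -conj (Ψ (conj y))) (Strip y₀ δ) := by
      refine DifferentiableOn.analyticOnNhd (fun y hy => ?_) hWo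
      have h3 : DifferentiableAt ℂ (conj ∘ Ψ ∘ conj) y := by
        rw [differentiableAt_conj_conj_iff]
        exact hΨd.differentiableAt (hWo.mem_nhds (hconjW y hy))
      exact h3.neg.differentiableWithinAt
    have hy0W : (y₀ : ℂ) ∈ Strip y₀ δ := by rw [mem_Strip]; simpa using hδ
    have h3 : ∃ᶠ z in 𝓝[≠] (y₀ : ℂ), Ψ z = -conj (Ψ (conj z)) := by
      have h4 : Tendsto (fun x : ℝ => (x : ℂ)) (𝓝[≠] y₀) (𝓝[≠] (y₀ : ℂ)) := by
        refine tendsto_nhdsWithin_of_tendsto_nhds_of_eventually_within _ ?_ ?_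
        · exact (Complex.continuous_ofReal.tendsto y₀).mono_left nhdsWithin_le_nhds
        · filter_upwards [self_mem_nhdsWithin] with x hx
          exact fun h5 => hx (Complex.ofReal_injective h5)
      have h5 : ∀ᶠ x : ℝ in 𝓝[≠] y₀, Ψ (x : ℂ) = -conj (Ψ (conj (x : ℂ))) := by
        have h6 : {s : ℝ | |s - y₀| < δ} ∈ 𝓝 y₀ := by
          refine IsOpen.mem_nhds ?_ (by simpa using hδ)
          exact isOpen_lt (continuous_abs.comp (continuous_id.sub continuous_const)) continuous_const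
        filter_upwards [nhdsWithin_le_nhds h6] with x hx
        rw [Complex.conj_ofReal]
        apply Complex.ext
        · rw [neg_re, Complex.conj_re, hΨr x hx, neg_zero]
        · rw [neg_im, Complex.conj_im, neg_neg]
      exact h4.frequently h5.frequently
    intro y hy
    exact h1.eqOn_of_preconnected_of_frequently_eq h2 (convex_Strip y₀ δ).isPreconnected hy0W h3 hy
  -- the vertical line
  set p : ℝ → ℂ := fun τ => (y₀ : ℂ) + τ * I with hp
  have hpW : ∀ τ, p τ ∈ Strip y₀ δ := by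
    intro τ
    rw [mem_Strip]
    simpa [hp] using hδ
  have hpd : ∀ τ, HasDerivAt p I τ := by
    intro τ
    have h1 := ((hasDerivAt_id τ).ofReal_comp.mul_const I).const_add (y₀ : ℂ)
    simpa [hp] using h1
  set a : ℝ → ℝ := fun τ => U (f (p τ)) with ha
  have had : ∀ τ, HasDerivAt a (-(Ψ (p τ)).im) τ := by
    intro τ
    have h1 : HasDerivAt (fun τ => f (p τ)) (deriv f (p τ) * I) τ :=
      ((hfd.differentiableAt (hWo.mem_nhds (hpW τ))).hasDerivAt).comp_of_eq τ (hpd τ) rfl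
    have h2 := hUpath h1 fun l hl t => havoid _ (hpW τ) l hl t
    refine h2.congr_deriv ?_
    rw [← mul_assoc, Complex.mul_I_re]
  have hodd : ∀ τ, a τ + a (-τ) = 2 * a 0 := by
    have h1 : ∀ τ, HasDerivAt (fun τ => a τ + a (-τ)) 0 τ := by
      intro τ
      have h2 := (had τ).add ((had (-τ)).comp_of_eq τ (hasDerivAt_neg τ) rfl)
      refine h2.congr_deriv ?_
      have h3 := hsym (p τ) (hpW τ)
      have h4 : conj (p τ) = p (-τ) := by
        simp only [hp, map_add, map_mul, Complex.conj_ofReal, Complex.conj_I]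
        push_cast
        ring
      rw [h4] at h3
      have h5 := congrArg Complex.im h3
      rw [neg_im, Complex.conj_im, neg_neg] at h5
      rw [h5]
      ring
    have h2 : ∀ τ, (fun τ => a τ + a (-τ)) τ = (fun τ => a τ + a (-τ)) 0 :=
      fun τ => is_const_of_deriv_eq_zero (fun τ => (h1 τ).differentiableAt) (fun τ => (h1 τ).deriv) τ 0
    intro τ
    have h3 := h2 τ
    simp only [neg_zero] at h3
    linarith
  -- growth
  obtain ⟨M, hM⟩ : ∃ M : ℝ, ∀ l, ∀ t ∈ Icc (0 : ℝ) 1, ‖c l t‖ ≤ M := by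
    have h1 : ∀ l, ∃ M : ℝ, ∀ t ∈ Icc (0 : ℝ) 1, ‖c l t‖ ≤ M := fun l =>
      isCompact_Icc.exists_bound_of_continuousOn (hcc l).continuousOn
    choose M hM using h1
    refine ⟨∑ l, |M l|, fun l t ht => (hM l t ht).trans ((le_abs_self _).trans ?_)⟩
    exact Finset.single_le_sum (f := fun l => |M l|) (fun _ _ => abs_nonneg _) (Finset.mem_univ l)
  set D : ℝ := ∑ l ∈ E, d l with hD
  set C : ℝ := ∑ l ∈ E, |d l| * Real.log 2 with hC
  have hgrow : ∀ x : ℂ, 2 * M ≤ ‖x‖ → 0 < ‖x‖ → D * Real.log ‖x‖ - C ≤ U x := by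
    intro x hx hx0
    have h1 : D * Real.log ‖x‖ - C = ∑ l ∈ E, (d l * Real.log ‖x‖ - |d l| * Real.log 2) := by
      rw [Finset.sum_sub_distrib, hD, Finset.sum_mul]
    rw [h1]
    refine Finset.sum_le_sum fun l _ => ?_
    have h2 := Us_near (hcc l) (hM l) hx hx0
    have h3 : |d l * (Us (c l) x - Real.log ‖x‖)| ≤ |d l| * Real.log 2 := by
      rw [abs_mul]
      exact mul_le_mul_of_nonneg_left h2 (abs_nonneg _)
    have h4 := (abs_le.1 h3).1
    linarith
  set X₀ : ℝ := max (2 * M) (Real.exp ((a 0 + 1 + C) / D)) with hX₀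
  obtain ⟨B, hB⟩ : ∃ B : ℝ, ∀ x : ℂ, ‖x‖ ≤ X₀ → ‖G.eval x‖ ≤ B := by
    obtain ⟨B, hB⟩ := (isCompact_closedBall (0 : ℂ) X₀).exists_bound_of_continuousOn
      G.continuous.continuousOn
    exact ⟨B, fun x hx => hB x (by rwa [mem_closedBall_zero_iff])⟩
  have hbig : ∀ τ : ℝ, B + |y₀| < |τ| → a 0 + 1 ≤ a τ := by
    intro τ hτ
    have h1 : B < ‖p τ‖ := by
      have h2 : |τ| ≤ ‖p τ‖ + ‖(y₀ : ℂ)‖ := by
        have e : ((τ : ℂ) * I) = p τ - y₀ := by simp [hp]
        have h3 : ‖(τ : ℂ) * I‖ = |τ| := by simp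
        rw [← h3, e]
        exact norm_sub_le _ _
      rw [Complex.norm_real, Real.norm_eq_abs] at h2
      linarith
    have h2 : X₀ < ‖f (p τ)‖ := by
      by_contra hcon2
      push Not at hcon2
      have h3 := hB _ hcon2
      rw [hfev _ (hpW τ)] at h3
      linarith
    have h4 : 2 * M ≤ ‖f (p τ)‖ := (le_max_left _ _).trans h2.le
    have h5 : Real.exp ((a 0 + 1 + C) / D) ≤ ‖f (p τ)‖ := (le_max_right _ _).trans h2.le
    have h6 : 0 < ‖f (p τ)‖ := (Real.exp_pos _).trans_le h5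
    have h7 := hgrow _ h4 h6
    have h8 : (a 0 + 1 + C) / D ≤ Real.log ‖f (p τ)‖ := by
      rw [Real.le_log_iff_exp_le h6]
      exact h5
    rw [div_le_iff₀ hd] at h8
    have h9 : a τ = U (f (p τ)) := rfl
    rw [h9]
    linarith
  have hτ0 : B + |y₀| < |(|B| + |y₀| + 1)| := by
    have h1 := le_abs_self B
    have h2 := abs_nonneg y₀
    have h3 := abs_nonneg B
    have h4 : |(|B| + |y₀| + 1)| = |B| + |y₀| + 1 := abs_of_nonneg (by positivity)
    rw [h4]
    linarith
  have h1 := hbig (|B| + |y₀| + 1) hτ0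
  have h2 := hbig (-(|B| + |y₀| + 1)) (by rw [abs_neg]; exact hτ0)
  have h3 := hodd (|B| + |y₀| + 1)
  linarith

/-- **The matrix of potentials is nondegenerate in the following sense**: if a combination of the rows is constant in
`θ`, at every branch, then all coefficients are equal. -/
theorem comb_const (H : Branches G V φ) (hdeg : 0 < G.natDegree) (c : Fin n → ℝ)
    (h : ∀ k θ, ∑ l, c l * Jm φ l k θ = ∑ l, c l * Jm φ l k 0) (i j : Fin n) : c i = c j := by
  classical
  have key : ∀ k, ∑ l, (c l - c k) = 0 := by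
    intro k
    by_contra hne
    have hsum : ∀ θ, ∑ l ∈ Finset.univ.erase k, (c l - c k) * Jm φ l k θ = ∑ l, c l * Jm φ l k θ := by
      intro θ
      have h1 := sum_Jm H k θ
      have h2 : ∑ l, c l * Jm φ l k θ = ∑ l, (c l - c k) * Jm φ l k θ := by
        simp only [sub_mul, Finset.sum_sub_distrib]
        rw [← Finset.mul_sum, h1]
        ring
      rw [h2, ← Finset.add_sum_erase _ _ (Finset.mem_univ k), sub_self, zero_mul, zero_add]
    have hne' : ∑ l ∈ Finset.univ.erase k, (c l - c k) ≠ 0 := by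
      rw [← Finset.add_sum_erase _ _ (Finset.mem_univ k), sub_self, zero_add] at hne
      exact hne
    rcases lt_or_gt_of_ne hne' with h1 | h1
    · obtain ⟨θ, hθ⟩ := comb_pos H hdeg k (fun l => -(c l - c k)) (by
        rw [Finset.sum_neg_distrib]
        linarith)
      apply hθ
      simp only [neg_mul, Finset.sum_neg_distrib]
      rw [hsum, hsum, h]
    · obtain ⟨θ, hθ⟩ := comb_pos H hdeg k (fun l => c l - c k) h1
      apply hθ
      rw [hsum, hsum, h]
  have h2 : ∀ k, (n : ℝ) * c k = ∑ l, c l := by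
    intro k
    have h3 := key k
    rw [Finset.sum_sub_distrib, Finset.sum_const, Finset.card_univ, Fintype.card_fin, nsmul_eq_mul] at h3
    linarith
  have hn : (n : ℝ) ≠ 0 := by
    have : 0 < n := Fin.pos i
    positivity
  exact mul_left_cancel₀ hn ((h2 i).trans (h2 j).symm)

end Pool.Agent.N76.IR
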