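import Pool.Agent.N686.PF.Main

set_option autoImplicit false

/-!
# The potential of an arc is not constant on another arc

Analytic continuation along a vertical strip.
-/

namespace Pool.Agent.N76.IR

open Polynomial MeasureTheory Set Filter Topology Complex
open Pool.Agent.Y775.CC
open Pool.Agent.TH826.MK (circ)
open scoped ComplexConjugate Interval

section integral

/-- the Cauchy transform of the curve `c` -/
noncomputable def Ss (c : ℝ → ℂ) (x : ℂ) : ℂ := ∫ t in (0 : ℝ)..1, (x - c t)⁻¹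

/-- its potential -/
noncomputable def Us (c : ℝ → ℂ) (x : ℂ) : ℝ := ∫ t in (0 : ℝ)..1, Real.log ‖x - c t‖

variable {c : ℝ → ℂ} (hc : Continuous c)

include hc

theorem exists_dist {x : ℂ} (hx : ∀ t ∈ Icc (0 : ℝ) 1, x ≠ c t) :
    ∃ d : ℝ, 0 < d ∧ ∀ y : ℂ, ‖y - x‖ < d → ∀ t ∈ Icc (0 : ℝ) 1, d ≤ ‖y - c t‖ := by
  have hK : IsCompact (c '' Icc (0 : ℝ) 1) := isCompact_Icc.image hc
  have hxK : x ∉ c '' Icc (0 : ℝ) 1 := by
    rintro ⟨t, ht, h1⟩
    exact hx t ht h1.symm
  obtain ⟨ε, hε, h1⟩ := Metric.isOpen_iff.1 hK.isClosed.isOpen_compl x hxK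
  refine ⟨ε / 2, by positivity, fun y hy t ht => ?_⟩
  have h2 : ε ≤ ‖c t - x‖ := by
    by_contra hcon
    push Not at hcon
    have h3 : c t ∈ Metric.ball x ε := by rwa [Metric.mem_ball, dist_eq_norm]
    exact h1 h3 ⟨t, ht, rfl⟩
  have h3 : ‖c t - x‖ ≤ ‖y - c t‖ + ‖y - x‖ := by
    have e : c t - x = -(y - c t) + (y - x) := by ring
    rw [e]
    exact (norm_add_le _ _).trans (by rw [norm_neg])
  linarith

theorem Ss_diff {x : ℂ} (hx : ∀ t ∈ Icc (0 : ℝ) 1, x ≠ c t) : DifferentiableAt ℂ (Ss c) x := by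
  obtain ⟨d, hd, h1⟩ := exists_dist hc hx
  have hI : ∀ t ∈ Ι (0 : ℝ) 1, t ∈ Icc (0 : ℝ) 1 := fun t ht => by
    rw [uIoc_of_le zero_le_one] at ht
    exact ⟨ht.1.le, ht.2⟩
  have hm : ∀ y : ℂ, AEStronglyMeasurable (fun t => (y - c t)⁻¹) (volume.restrict (Ι (0 : ℝ) 1)) := fun y =>
    ((measurable_const.sub hc.measurable).inv).aestronglyMeasurable
  have h2 := intervalIntegral.hasDerivAt_integral_of_dominated_loc_of_deriv_le (𝕜 := ℂ) (μ := volume)
    (a := 0) (b := 1) (F := fun y t => (y - c t)⁻¹) (F' := fun y t => -((y - c t) ^ 2)⁻¹) (x₀ := x)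
    (s := Metric.ball x d) (bound := fun _ => (d ^ 2)⁻¹) (Metric.ball_mem_nhds x hd)
    (Eventually.of_forall hm) ?_ ?_ ?_ ?_ ?_
  · exact h2.2.differentiableAt
  · refine ContinuousOn.intervalIntegrable ?_
    refine ContinuousOn.inv₀ (continuousOn_const.sub hc.continuousOn) fun t ht => ?_
    rw [uIcc_of_le zero_le_one] at ht
    exact sub_ne_zero.2 (hx t ht)
  · exact (((measurable_const.sub hc.measurable).pow_const 2).inv.neg).aestronglyMeasurable
  · refine Eventually.of_forall fun t ht y hy => ?_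
    rw [Metric.mem_ball, dist_eq_norm] at hy
    have h3 := h1 y hy t (hI t ht)
    rw [norm_neg, norm_inv, norm_pow]
    exact inv_anti₀ (by positivity) (pow_le_pow_left₀ hd.le h3 2)
  · exact intervalIntegrable_const
  · refine Eventually.of_forall fun t ht y hy => ?_
    rw [Metric.mem_ball, dist_eq_norm] at hy
    have h3 := h1 y hy t (hI t ht)
    have h4 : y - c t ≠ 0 := norm_pos_iff.1 (hd.trans_le h3)
    have h5 := ((hasDerivAt_id y).sub_const (c t)).inv h4
    simp only [id] at h5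
    rwa [neg_div, one_div] at h5

theorem Us_hasFDeriv {x : ℂ} (hx : ∀ t ∈ Icc (0 : ℝ) 1, x ≠ c t) :
    HasFDerivAt (Us c) (Complex.reCLM.comp ((Ss c x) • (1 : ℂ →L[ℝ] ℂ))) x := by
  obtain ⟨d, hd, h1⟩ := exists_dist hc hx
  rw [hasFDerivAt_iff_isLittleO_nhds_zero]
  have hint : ∀ y : ℂ, ‖y - x‖ < d → IntervalIntegrable (fun t => Real.log ‖y - c t‖) volume 0 1 := by
    intro y hy
    refine ContinuousOn.intervalIntegrable ?_
    refine ContinuousOn.log (continuousOn_const.sub hc.continuousOn).norm fun t ht => ?_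
    rw [uIcc_of_le zero_le_one] at ht
    exact (hd.trans_le (h1 y hy t ht)).ne'
  have hint2 : IntervalIntegrable (fun t => (x - c t)⁻¹) volume 0 1 := by
    refine ContinuousOn.intervalIntegrable ?_
    refine ContinuousOn.inv₀ (continuousOn_const.sub hc.continuousOn) fun t ht => ?_
    rw [uIcc_of_le zero_le_one] at ht
    exact sub_ne_zero.2 (hx t ht)
  have key : ∀ h : ℂ, ‖h‖ < d / 2 →
      ‖Us c (x + h) - Us c x - (Complex.reCLM.comp ((Ss c x) • (1 : ℂ →L[ℝ] ℂ))) h‖ ≤ (1 / d ^ 2) * ‖‖h‖ ^ 2‖ := by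
    intro h hh
    have e1 : (Complex.reCLM.comp ((Ss c x) • (1 : ℂ →L[ℝ] ℂ))) h =
        ∫ t in (0 : ℝ)..1, ((x - c t)⁻¹ * h).re := by
      have h2 : (∫ t in (0 : ℝ)..1, (x - c t)⁻¹ * h) = Ss c x * h := by
        unfold Ss
        rw [intervalIntegral.integral_mul_const]
      have h3 := Complex.reCLM.intervalIntegral_comp_comm (hint2.mul_const h)
      simp only [Complex.reCLM_apply] at h3
      rw [h3, h2]
      simp
    have hi1 := hint (x + h) (by rw [add_sub_cancel_left]; linarith)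
    have hi2 := hint x (by rw [sub_self, norm_zero]; exact hd)
    have hi3 : IntervalIntegrable (fun t => ((x - c t)⁻¹ * h).re) volume 0 1 := by
      refine ContinuousOn.intervalIntegrable (Complex.continuous_re.comp_continuousOn ?_)
      refine ContinuousOn.mul ?_ continuousOn_const
      refine ContinuousOn.inv₀ (continuousOn_const.sub hc.continuousOn) fun t ht => ?_
      rw [uIcc_of_le zero_le_one] at ht
      exact sub_ne_zero.2 (hx t ht)
    rw [e1]
    unfold Us
    rw [← intervalIntegral.integral_sub hi1 hi2, ← intervalIntegral.integral_sub (hi1.sub hi2) hi3]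
    have h4 := intervalIntegral.norm_integral_le_of_norm_le_const (a := (0 : ℝ)) (b := 1) (C := (1 / d ^ 2) * ‖‖h‖ ^ 2‖)
      (f := fun t => Real.log ‖x + h - c t‖ - Real.log ‖x - c t‖ - ((x - c t)⁻¹ * h).re) (fun t ht => ?_)
    · rwa [sub_zero, abs_one, mul_one] at h4
    · rw [uIoc_of_le zero_le_one] at ht
      have ht' : t ∈ Icc (0 : ℝ) 1 := ⟨ht.1.le, ht.2⟩
      have h5 := h1 x (by rw [sub_self, norm_zero]; exact hd) t ht'
      have h6 : x - c t ≠ 0 := norm_pos_iff.1 (hd.trans_le h5)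
      set z : ℂ := (x - c t)⁻¹ * h with hz
      have hzn : ‖z‖ ≤ ‖h‖ / d := by
        rw [hz, norm_mul, norm_inv, inv_mul_eq_div]
        exact div_le_div_of_nonneg_left (norm_nonneg _) hd h5
      have hz2 : ‖z‖ ≤ 1 / 2 := by
        refine hzn.trans ?_
        rw [div_le_iff₀ hd]
        linarith
      have h7 : x + h - c t = (x - c t) * (1 + z) := by
        rw [hz]
        field_simp
        ring
      have h8 : (1 + z) ≠ 0 := by
        intro h9
        have h10 : z = -1 := by linear_combination h9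
        rw [h10, norm_neg, norm_one] at hz2
        norm_num at hz2
      have h9 : Real.log ‖x + h - c t‖ - Real.log ‖x - c t‖ = (Complex.log (1 + z)).re := by
        rw [h7, norm_mul, Real.log_mul (norm_ne_zero_iff.2 h6) (norm_ne_zero_iff.2 h8), Complex.log_re]
        ring
      rw [h9, ← Complex.sub_re]
      refine (Complex.abs_re_le_norm _).trans ?_
      have h10 := Complex.norm_log_one_add_sub_self_le (z := z) (by linarith)
      refine h10.trans ?_
      have h11 : (1 - ‖z‖)⁻¹ / 2 ≤ 1 := by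
        rw [div_le_one two_pos]
        refine inv_le_of_inv_le₀ two_pos ?_
        linarith
      rw [Real.norm_of_nonneg (by positivity), mul_div_assoc]
      calc ‖z‖ ^ 2 * ((1 - ‖z‖)⁻¹ / 2) ≤ ‖z‖ ^ 2 * 1 := mul_le_mul_of_nonneg_left h11 (by positivity)
        _ ≤ (‖h‖ / d) ^ 2 := by
          rw [mul_one]
          exact pow_le_pow_left₀ (norm_nonneg _) hzn 2
        _ = 1 / d ^ 2 * ‖h‖ ^ 2 := by
          rw [div_pow]
          ring
  have hO : (fun h => Us c (x + h) - Us c x - (Complex.reCLM.comp ((Ss c x) • (1 : ℂ →L[ℝ] ℂ))) h)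
      =O[𝓝 0] fun h : ℂ => ‖h‖ ^ 2 := by
    refine Asymptotics.IsBigO.of_bound (1 / d ^ 2) ?_
    filter_upwards [Metric.ball_mem_nhds (0 : ℂ) (half_pos hd)] with h hh
    rw [mem_ball_zero_iff] at hh
    exact key h hh
  exact hO.trans_isLittleO (Asymptotics.isLittleO_norm_pow_id one_lt_two)

/-- the potential along a path -/
theorem Us_path {p : ℝ → ℂ} {p' : ℂ} {s : ℝ} (hp : HasDerivAt p p' s) (hx : ∀ t ∈ Icc (0 : ℝ) 1, p s ≠ c t) :
    HasDerivAt (fun s => Us c (p s)) (Ss c (p s) * p').re s := by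
  have h1 := (Us_hasFDeriv hc hx).comp_hasDerivAt s hp
  refine h1.congr_deriv ?_
  simp

/-- a lower bound for the potential -/
theorem le_Us {M : ℝ} (hM : ∀ t ∈ Icc (0 : ℝ) 1, ‖c t‖ ≤ M) {x : ℂ} (hx : M < ‖x‖) :
    Real.log (‖x‖ - M) ≤ Us c x := by
  have h1 : ∀ t ∈ Icc (0 : ℝ) 1, ‖x‖ - M ≤ ‖x - c t‖ := by
    intro t ht
    have h2 := norm_sub_norm_le x (c t)
    have h3 := hM t ht
    linarith
  have hpos : 0 < ‖x‖ - M := by linarith
  have h2 : (∫ _ in (0 : ℝ)..1, Real.log (‖x‖ - M)) ≤ Us c x := by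
    unfold Us
    refine intervalIntegral.integral_mono_on zero_le_one intervalIntegrable_const ?_ fun t ht => ?_
    · refine ContinuousOn.intervalIntegrable ?_
      refine ContinuousOn.log (continuousOn_const.sub hc.continuousOn).norm fun t ht => ?_
      rw [uIcc_of_le zero_le_one] at ht
      exact (hpos.trans_le (h1 t ht)).ne'
    · exact Real.log_le_log hpos (h1 t ht)
  simpa using h2

end integral

end Pool.Agent.N76.IR
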