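import Mathlib

set_option autoImplicit false

/-!
# The orbit of the powers of a large number is dense in the torus
-/

namespace Pool.Agent.N76.IR

/-- a real number with prescribed approximate values of `T ^ a * θ` modulo one -/
theorem exists_theta {T : ℕ} (hT : 1 ≤ T) (m : ℕ) (x : Fin m → ℝ) :
    ∃ (θ : ℝ) (n : Fin m → ℤ), ∀ a : Fin m, |(T : ℝ) ^ (a : ℕ) * θ - n a - x a| ≤ 1 / T := by
  have hT0 : (0 : ℝ) < T := by exact_mod_cast hT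
  induction m with
  | zero => exact ⟨0, fun a => a.elim0, fun a => a.elim0⟩
  | succ m ih =>
    obtain ⟨θ₁, n₁, h1⟩ := ih fun a => x a.succ
    set i : ℤ := ⌊(T : ℝ) * x 0 - θ₁⌋ with hi
    refine ⟨(θ₁ + i) / T, Fin.cons 0 fun a => n₁ a + (T : ℤ) ^ (a : ℕ) * i, fun a => ?_⟩
    refine Fin.cases ?_ (fun a => ?_) a
    · rw [Fin.cons_zero, Int.cast_zero, sub_zero, Fin.val_zero, pow_zero, one_mul]
      have h2 := Int.floor_le ((T : ℝ) * x 0 - θ₁)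
      have h3 := Int.lt_floor_add_one ((T : ℝ) * x 0 - θ₁)
      rw [← hi] at h2 h3
      have h4 : (θ₁ + i) / T - x 0 = (θ₁ + i - T * x 0) / T := by field_simp
      rw [h4, abs_div, abs_of_pos hT0]
      refine div_le_div_of_nonneg_right ?_ hT0.le
      rw [abs_le]
      constructor <;> linarith
    · rw [Fin.cons_succ, Fin.val_succ]
      have h2 : (T : ℝ) ^ ((a : ℕ) + 1) * ((θ₁ + i) / T) - ((n₁ a + (T : ℤ) ^ (a : ℕ) * i : ℤ) : ℝ) - x a.succ =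
          (T : ℝ) ^ (a : ℕ) * θ₁ - n₁ a - x a.succ := by
        push_cast
        field_simp
        ring
      rw [h2]
      exact h1 a

/-- **Density.** -/
theorem exists_dense {p : ℕ} (hp : 2 ≤ p) (m : ℕ) {δ : ℝ} (hδ : 0 < δ) :
    ∃ (k N₀ : ℕ), ∀ N : ℕ, N₀ ≤ N → ∀ x : Fin m → ℝ, ∃ (j : ℤ) (n : Fin m → ℤ),
      ∀ a : Fin m, |((p ^ k : ℕ) : ℝ) ^ (a : ℕ) * ((j : ℝ) / N) - n a - x a| < δ := by
  obtain ⟨k, hk⟩ := exists_nat_gt (2 / δ)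
  set T : ℕ := p ^ k with hT
  have hT1 : 1 ≤ T := Nat.one_le_pow _ _ (by omega)
  have hT0 : (0 : ℝ) < T := by exact_mod_cast hT1
  have hkT : (k : ℝ) ≤ T := by
    have h1 : k < p ^ k := Nat.lt_pow_self (by omega)
    exact_mod_cast h1.le
  obtain ⟨N₀, hN₀⟩ := exists_nat_gt (2 * (T : ℝ) ^ m / δ)
  refine ⟨k, N₀, fun N hN x => ?_⟩
  have hNN : (N₀ : ℝ) ≤ N := by exact_mod_cast hN
  have hN0 : (0 : ℝ) < N := lt_of_le_of_lt (by positivity) (hN₀.trans_le hNN)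
  obtain ⟨θ, n, h1⟩ := exists_theta hT1 m x
  refine ⟨⌊(N : ℝ) * θ⌋, n, fun a => ?_⟩
  have h2 := Int.floor_le ((N : ℝ) * θ)
  have h3 := Int.lt_floor_add_one ((N : ℝ) * θ)
  have h4 : |(⌊(N : ℝ) * θ⌋ : ℝ) / N - θ| ≤ 1 / N := by
    rw [show (⌊(N : ℝ) * θ⌋ : ℝ) / N - θ = ((⌊(N : ℝ) * θ⌋ : ℝ) - N * θ) / N by field_simp,
      abs_div, abs_of_pos hN0]
    refine div_le_div_of_nonneg_right ?_ hN0.le
    rw [abs_le]
    constructor <;> linarith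
  have h5 : (T : ℝ) ^ (a : ℕ) ≤ (T : ℝ) ^ m := pow_le_pow_right₀ (by exact_mod_cast hT1) a.2.le
  have h6 : |(T : ℝ) ^ (a : ℕ) * ((⌊(N : ℝ) * θ⌋ : ℝ) / N - θ)| < δ / 2 := by
    rw [abs_mul, abs_of_nonneg (by positivity : (0 : ℝ) ≤ (T : ℝ) ^ (a : ℕ))]
    calc (T : ℝ) ^ (a : ℕ) * |(⌊(N : ℝ) * θ⌋ : ℝ) / N - θ| ≤ (T : ℝ) ^ m * (1 / N) :=
          mul_le_mul h5 h4 (abs_nonneg _) (by positivity)
      _ < δ / 2 := by
          rw [mul_one_div, div_lt_iff₀ hN0]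
          have h7 : 2 * (T : ℝ) ^ m / δ < N := hN₀.trans_le hNN
          rw [div_lt_iff₀ hδ] at h7
          linarith
  have h7 : |(T : ℝ) ^ (a : ℕ) * θ - n a - x a| < δ / 2 := by
    refine (h1 a).trans_lt ?_
    rw [div_lt_iff₀ hT0]
    have h8 : 2 / δ < T := hk.trans_le hkT
    rw [div_lt_iff₀ hδ] at h8
    linarith
  have h8 : (T : ℝ) ^ (a : ℕ) * ((⌊(N : ℝ) * θ⌋ : ℝ) / N) - n a - x a =
      (T : ℝ) ^ (a : ℕ) * ((⌊(N : ℝ) * θ⌋ : ℝ) / N - θ) + ((T : ℝ) ^ (a : ℕ) * θ - n a - x a) := by ring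
  rw [h8]
  refine (abs_add_le _ _).trans_lt ?_
  linarith

end Pool.Agent.N76.IR
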