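import Pool.Agent.N76.IR.Den

set_option autoImplicit false

/-!
# Families of functions on fibres: independence for all permutations of the fibres
-/

namespace Pool.Agent.N76.IR

open Set Filter Topology

variable {m g : ℕ} {J : Fin m → Fin (g + 1) → Fin (g + 1) → ℝ → ℝ}

/-- the combination with coefficients `c`, at the point `k` of the fibre, permuted by `π` -/
noncomputable def Lc (J : Fin m → Fin (g + 1) → Fin (g + 1) → ℝ → ℝ) (c : Fin m → Fin g → ℝ) (x : Fin m → ℝ)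
    (π : Fin m → Fin (g + 1) → Fin (g + 1)) (k : Fin (g + 1)) : ℝ :=
  ∑ a, ∑ l, c a l * J a l.succ (π a k) (x a)

/-- no relation with coefficients `c`, `c₀` on the fibre over `x` -/
def Good (J : Fin m → Fin (g + 1) → Fin (g + 1) → ℝ → ℝ) (c : (Fin m → Fin g → ℝ) × ℝ) (x : Fin m → ℝ) : Prop :=
  ∀ π : Fin m → Fin (g + 1) → Fin (g + 1), (∀ a, Function.Bijective (π a)) → ∃ k, Lc J c.1 x π k ≠ c.2

/-- **One relation.** -/
theorem exists_good (hc : ∀ a l k, Continuous (J a l k))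
    (hJ : ∀ a (c : Fin (g + 1) → ℝ), (∀ k θ, ∑ l, c l * J a l k θ = ∑ l, c l * J a l k 0) → ∀ i j, c i = c j)
    (c : (Fin m → Fin g → ℝ) × ℝ) (h0 : c ≠ 0) : ∃ x : Fin m → ℝ, Good J c x := by
  classical
  obtain ⟨c, c₀⟩ := c
  by_contra hcon
  unfold Good at hcon
  push Not at hcon
  simp only at hcon
  have hcne : c ≠ 0 := by
    intro h1
    obtain ⟨π, -, hπ⟩ := hcon 0
    have h2 := hπ 0
    unfold Lc at h2
    rw [h1] at h2
    simp only [Pi.zero_apply, zero_mul, Finset.sum_const_zero] at h2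
    apply h0
    rw [h1, ← h2]
    rfl
  obtain ⟨a₀, ha₀⟩ := Function.ne_iff.1 hcne
  obtain ⟨l₀, hl₀⟩ := Function.ne_iff.1 ha₀
  simp only [Pi.zero_apply] at hl₀
  -- a branch on which the combination is not constant
  have h1 : ¬ ∀ k θ, ∑ l, (Fin.cons 0 (c a₀) : Fin (g + 1) → ℝ) l * J a₀ l k θ =
      ∑ l, (Fin.cons 0 (c a₀) : Fin (g + 1) → ℝ) l * J a₀ l k 0 := by
    intro h2
    have h3 := hJ a₀ _ h2 l₀.succ 0
    rw [Fin.cons_succ, Fin.cons_zero] at h3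
    exact hl₀ h3
  push Not at h1
  obtain ⟨k₀, θ₀, hθ₀⟩ := h1
  set v : ℝ → ℝ := fun θ => ∑ l, c a₀ l * J a₀ l.succ k₀ θ with hv
  have hvv : ∀ θ, ∑ l, (Fin.cons 0 (c a₀) : Fin (g + 1) → ℝ) l * J a₀ l k₀ θ = v θ := by
    intro θ
    rw [Fin.sum_univ_succ]
    simp [hv]
  rw [hvv, hvv] at hθ₀
  have hvc : Continuous v := continuous_finsetSum _ fun l _ => continuous_const.mul (hc _ _ _)
  -- finitely many values
  set Φ : (Fin m → Fin (g + 1)) → ℝ := fun κ =>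
    c₀ - ∑ a ∈ Finset.univ.erase a₀, ∑ l, c a l * J a l.succ (κ a) 0 with hΦ
  have hfin : (range Φ).Finite := finite_range Φ
  have hmem : ∀ θ, v θ ∈ range Φ := by
    intro θ
    obtain ⟨π, hπ, h2⟩ := hcon (Function.update 0 a₀ θ)
    obtain ⟨k, hk⟩ := (hπ a₀).2 k₀
    have h3 := h2 k
    unfold Lc at h3
    rw [← Finset.add_sum_erase _ _ (Finset.mem_univ a₀)] at h3
    refine ⟨fun a => π a k, ?_⟩
    have h4 : ∑ l, c a₀ l * J a₀ l.succ (π a₀ k) (Function.update (0 : Fin m → ℝ) a₀ θ a₀) = v θ := by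
      rw [Function.update_self, hk]
    have h5 : ∑ a ∈ Finset.univ.erase a₀, ∑ l, c a l * J a l.succ (π a k) (Function.update (0 : Fin m → ℝ) a₀ θ a) =
        ∑ a ∈ Finset.univ.erase a₀, ∑ l, c a l * J a l.succ (π a k) 0 := by
      refine Finset.sum_congr rfl fun a ha => ?_
      rw [Function.update_of_ne (Finset.ne_of_mem_erase ha)]
      rfl
    rw [h4, h5] at h3
    show c₀ - ∑ a ∈ Finset.univ.erase a₀, ∑ l, c a l * J a l.succ (π a k) 0 = v θ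
    linarith
  have hinf : (uIcc (v 0) (v θ₀)).Infinite := by
    rw [uIcc]
    exact Set.Icc_infinite (by
      rw [inf_lt_sup]
      exact hθ₀.symm)
  refine hinf (hfin.subset fun y hy => ?_)
  obtain ⟨θ, -, hθ⟩ := intermediate_value_uIcc hvc.continuousOn hy
  rw [← hθ]
  exact hmem θ

/-- the condition is open -/
theorem isOpen_good (hc : ∀ a l k, Continuous (J a l k)) :
    IsOpen {q : ((Fin m → Fin g → ℝ) × ℝ) × (Fin m → ℝ) | Good J q.1 q.2} := by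
  classical
  have h1 : {q : ((Fin m → Fin g → ℝ) × ℝ) × (Fin m → ℝ) | Good J q.1 q.2} =
      ⋂ π : {π : Fin m → Fin (g + 1) → Fin (g + 1) // ∀ a, Function.Bijective (π a)},
        ⋃ k : Fin (g + 1), {q | Lc J q.1.1 q.2 π.1 k ≠ q.1.2} := by
    ext q
    simp only [mem_ofPred_eq, mem_iInter, mem_iUnion, Good]
    constructor
    · intro h π
      exact h π.1 π.2
    · intro h π hπ
      exact h ⟨π, hπ⟩
  rw [h1]
  refine isOpen_iInter_of_finite fun π => isOpen_iUnion fun k => isOpen_ne_fun ?_ ?_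
  · unfold Lc
    refine continuous_finsetSum _ fun a _ => continuous_finsetSum _ fun l _ => ?_
    refine Continuous.mul ?_ ((hc _ _ _).comp ((continuous_apply a).comp continuous_snd))
    exact (continuous_apply l).comp ((continuous_apply a).comp (continuous_fst.comp continuous_fst))
  · exact continuous_snd.comp continuous_fst

/-- **Uniformity.** -/
theorem exists_delta (hc : ∀ a l k, Continuous (J a l k))
    (hJ : ∀ a (c : Fin (g + 1) → ℝ), (∀ k θ, ∑ l, c l * J a l k θ = ∑ l, c l * J a l k 0) → ∀ i j, c i = c j) :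
    ∃ δ : ℝ, 0 < δ ∧ ∀ c : (Fin m → Fin g → ℝ) × ℝ, c ≠ 0 → ∃ x : Fin m → ℝ, ∀ x' : Fin m → ℝ,
      (∀ a, |x' a - x a| < δ) → Good J c x' := by
  classical
  have key : ∃ δ : ℝ, 0 < δ ∧ ∀ c ∈ Metric.sphere (0 : (Fin m → Fin g → ℝ) × ℝ) 1, ∃ x : Fin m → ℝ,
      ∀ x' : Fin m → ℝ, (∀ a, |x' a - x a| < δ) → Good J c x' := by
    refine IsCompact.induction_on (isCompact_sphere (0 : (Fin m → Fin g → ℝ) × ℝ) 1)
      (p := fun S => ∃ δ : ℝ, 0 < δ ∧ ∀ c ∈ S, ∃ x : Fin m → ℝ,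
        ∀ x' : Fin m → ℝ, (∀ a, |x' a - x a| < δ) → Good J c x') ?_ ?_ ?_ ?_
    · exact ⟨1, one_pos, fun c hc => hc.elim⟩
    · rintro S S' hSS ⟨δ, hδ, h⟩
      exact ⟨δ, hδ, fun c hc => h c (hSS hc)⟩
    · rintro S S' ⟨δ, hδ, h⟩ ⟨δ', hδ', h'⟩
      refine ⟨min δ δ', lt_min hδ hδ', ?_⟩
      rintro c (hc | hc)
      · obtain ⟨x, hx⟩ := h c hc
        exact ⟨x, fun x' hx' => hx x' fun a => (hx' a).trans_le (min_le_left _ _)⟩
      · obtain ⟨x, hx⟩ := h' c hc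
        exact ⟨x, fun x' hx' => hx x' fun a => (hx' a).trans_le (min_le_right _ _)⟩
    · intro c hcS
      have hc0 : c ≠ 0 := by
        rintro rfl
        simp at hcS
      obtain ⟨x, hx⟩ := exists_good hc hJ c hc0
      obtain ⟨δ, hδ, hball⟩ := Metric.isOpen_iff.1 (isOpen_good hc) (c, x) hx
      refine ⟨Metric.ball c δ, mem_nhdsWithin_of_mem_nhds (Metric.ball_mem_nhds c hδ), δ, hδ, fun c' hc' =>
        ⟨x, fun x' hx' => ?_⟩⟩
      have h1 : ((c', x') : ((Fin m → Fin g → ℝ) × ℝ) × (Fin m → ℝ)) ∈ Metric.ball (c, x) δ := by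
        rw [Metric.mem_ball, Prod.dist_eq, max_lt_iff]
        refine ⟨hc', ?_⟩
        rw [dist_pi_lt_iff hδ]
        intro a
        rw [Real.dist_eq]
        exact hx' a
      exact hball h1
  obtain ⟨δ, hδ, h⟩ := key
  refine ⟨δ, hδ, fun c hc0 => ?_⟩
  have hn : 0 < ‖c‖ := norm_pos_iff.2 hc0
  obtain ⟨x, hx⟩ := h (‖c‖⁻¹ • c) (by
    rw [mem_sphere_zero_iff_norm, norm_smul, norm_inv, norm_norm, inv_mul_cancel₀ hn.ne'])
  refine ⟨x, fun x' hx' π hπ => ?_⟩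
  obtain ⟨k, hk⟩ := hx x' hx' π hπ
  refine ⟨k, fun h1 => hk ?_⟩
  have h2 : Lc J (‖c‖⁻¹ • c).1 x' π k = ‖c‖⁻¹ * Lc J c.1 x' π k := by
    unfold Lc
    rw [Finset.mul_sum]
    refine Finset.sum_congr rfl fun a _ => ?_
    rw [Finset.mul_sum]
    refine Finset.sum_congr rfl fun l _ => ?_
    show ‖c‖⁻¹ * c.1 a l * _ = _
    ring
  rw [h2, h1]
  rfl

/-- **Points with a large denominator.** -/
theorem exists_int (hc : ∀ a l k, Continuous (J a l k)) (hper : ∀ a l k θ, J a l k (θ + 1) = J a l k θ)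
    (hJ : ∀ a (c : Fin (g + 1) → ℝ), (∀ k θ, ∑ l, c l * J a l k θ = ∑ l, c l * J a l k 0) → ∀ i j, c i = c j)
    {p : ℕ} (hp : 2 ≤ p) :
    ∃ (k N₀ : ℕ), ∀ N : ℕ, N₀ ≤ N → ∀ c : (Fin m → Fin g → ℝ) × ℝ, c ≠ 0 →
      ∃ j : ℤ, Good J c fun a => ((p ^ k : ℕ) : ℝ) ^ (a : ℕ) * ((j : ℝ) / N) := by
  obtain ⟨δ, hδ, h⟩ := exists_delta hc hJ
  obtain ⟨k, N₀, hN⟩ := exists_dense hp m hδ
  refine ⟨k, N₀, fun N hNN c hc0 => ?_⟩
  obtain ⟨x, hx⟩ := h c hc0
  obtain ⟨j, n, hj⟩ := hN N hNN x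
  refine ⟨j, fun π hπ => ?_⟩
  obtain ⟨k', hk'⟩ := hx (fun a => ((p ^ k : ℕ) : ℝ) ^ (a : ℕ) * ((j : ℝ) / N) - n a) (fun a => hj a) π hπ
  refine ⟨k', ?_⟩
  have h1 : Lc J c.1 (fun a => ((p ^ k : ℕ) : ℝ) ^ (a : ℕ) * ((j : ℝ) / N) - n a) π k' =
      Lc J c.1 (fun a => ((p ^ k : ℕ) : ℝ) ^ (a : ℕ) * ((j : ℝ) / N)) π k' := by
    unfold Lc
    refine Finset.sum_congr rfl fun a _ => Finset.sum_congr rfl fun l _ => ?_
    congr 1
    have hP : Function.Periodic (J a l.succ (π a k')) 1 := hper a l.succ (π a k')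
    have h2 := hP.sub_int_mul_eq (n a) (x := ((p ^ k : ℕ) : ℝ) ^ (a : ℕ) * ((j : ℝ) / N))
    rw [mul_one] at h2
    exact h2
  rw [← h1]
  exact hk'

end Pool.Agent.N76.IR
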