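import Pool.Agent.N686.PF.Main

set_option autoImplicit false

/-!
# Loops over an embedding
-/

namespace Pool.Agent.N76.IR

open Polynomial MeasureTheory Set
open Pool.Agent.TH826.MK (Torus symb circ norm_circ contDiff_circ circ_add_one KQ Unramified)
open Pool.Agent.TH826.HD (PRing POpen pent toP pcst pDel)
open Pool.Agent.TH826.UH (pr NZ nz_circ ld_circ PtS mkS mkS_e mkS_reg)
open Pool.Agent.Y775.CC

/-- A loop over the embedding `s` with the regulators of all symbols `{z, (x - b_m) / (x - b_k)}`. -/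
theorem exists_loop {K : Type*} [Field K] {s : K →+* ℂ} {F : K[X]} {V : Set ℂ} {n r : ℕ} {φ : Fin n → ℂ → ℂ}
    (H : Branches (F.map s) V φ) (b : Fin r → K) (β : Fin r → Fin n) (θ : Fin r → ℝ)
    (hb : ∀ m, s (b m) = φ (β m) (uu 1 (θ m))) (l : Fin n) :
    ∃ Γ : Torus (POpen F b) 1, (∀ t (y : K), Γ.e t (pcst F b y) = s y) ∧
      ∀ m k, Γ.reg (symb (pent F b m k)) = -(2 * Real.pi) * (Jm φ l (β m) (θ m) - Jm φ l (β k) (θ k)) := by
  obtain ⟨R, hR, hV⟩ := exists_radius' H.isOpen H.mem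
  have hR0 : 0 < R := by linarith
  have hz := nz_circ hR0
  have hVR : ∀ t, uu R t ∈ V := uu_mem hR.le hV
  have hev : ∀ i, ∀ u ∈ V, F.eval₂ s (φ i u) = u := fun i u hu => by
    rw [← eval_map]
    exact H.eval_branch i hu
  have heq : ∀ i t, circ R t ^ 2 - F.eval₂ s (φ i (uu R t)) * circ R t + 1 = 0 := by
    intro i t
    rw [hev i _ (hVR t)]
    have h1 : circ R t * (circ R t)⁻¹ = 1 := mul_inv_cancel₀ (circ_ne_zero hR0 t)
    have h3 : uu R t = circ R t + (circ R t)⁻¹ := rfl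
    rw [h3]
    linear_combination -h1
  have hP : ∀ t, PtS s F b (φ l (uu R t)) (circ R t) := by
    intro t
    refine ⟨heq l t, fun m h => ?_⟩
    rw [hb m] at h
    exact uu_ne hR _ _ (H.eq_of_eq (hVR t) (H.uu_mem _) h).2
  have hX : ContDiff ℝ 2 fun t => φ l (uu R t) := contDiff_branch_uu H hR hV l hR.le le_rfl
  have pX : ∀ t, φ l (uu R (t + 1)) = φ l (uu R t) := fun t => by rw [uu_add_one]
  refine ⟨mkS hX hz.smooth pX (circ_add_one R) hP, fun t y => ?_, fun m k => ?_⟩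
  · rw [mkS_e, PtS.evA_pcst]
  · rw [mkS_reg hX hz]
    simp only [hb]
    rw [Pool.Agent.N686.PF.pr_loop H hR hV, Pool.Agent.N686.PF.pr_loop H hR hV]
    ring

end Pool.Agent.N76.IR
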