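import Pool.Agent.N76.IR.Lp
import Pool.Agent.N76.IR.Cx3
import Pool.Agent.N76.IR.Emb
import Pool.Agent.N76.IR.Fam

set_option autoImplicit false

/-!
# Full rank at many places: the points, the embeddings and the determinant
-/

namespace Pool.Agent.N76.IR

open Polynomial MeasureTheory Set
open Pool.Agent.TH826.MK (Torus symb circ)
open Pool.Agent.TH826.HD (PRing POpen pent toP pcst pDel)
open Pool.Agent.Y775.CC

/-- the permutation of the fibre defined by an embedding -/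
theorem exists_perm' {n : ℕ} {G : ℂ[X]} {V : Set ℂ} {φ : Fin n → ℂ → ℂ} (H : Branches G V φ)
    {x : Fin n → ℂ} (hx : Function.Injective x) {θ : ℝ} (hG : ∀ k, G.eval (x k) = uu 1 θ) :
    ∃ π : Fin n → Fin n, Function.Bijective π ∧ ∀ k, x k = φ (π k) (uu 1 θ) := by
  have h1 : ∀ k, ∃ l, x k = φ l (uu 1 θ) := by
    intro k
    have h2 := H.eval_sub_eq (H.uu_mem θ) (x k)
    rw [hG, sub_self] at h2
    obtain ⟨l, -, hl⟩ := Finset.prod_eq_zero_iff.1 h2.symm
    exact ⟨l, sub_eq_zero.1 hl⟩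
  choose π hπ using h1
  refine ⟨π, Finite.injective_iff_bijective.1 fun k l hkl => hx ?_, hπ⟩
  rw [hπ k, hπ l, hkl]

theorem map_cheb' {L : Type*} [Field L] (s : L →+* ℂ) (N : ℤ) (y : L) :
    s ((Chebyshev.C L N).eval y) = (Chebyshev.C ℂ N).eval (s y) := by
  rw [← Chebyshev.map_C s, eval_map, eval₂_hom]

/-- the `N`-th roots of unity -/
theorem circ_pow_eq_one {N : ℕ} (hN0 : 0 < N) (j : ℤ) : circ 1 ((j : ℝ) / N) ^ N = 1 := by
  have : NeZero N := ⟨hN0.ne'⟩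
  have h1 := circ_zpow' (N := N) j 1
  rw [Nat.cast_one, Nat.cast_one, one_mul, one_mul] at h1
  rw [← h1, ← zpow_natCast, ← zpow_mul, mul_comm, zpow_mul, zpow_natCast, prim_circ.pow_eq_one, one_zpow]

/-- **Full rank at many places.** -/
theorem main2 {g m : ℕ} (hm : 0 < m) {K : Type*} [Field K] [NumberField K] {F : K[X]} (hdeg : 0 < F.natDegree)
    (σ : Fin m → (K →+* ℂ)) {V : Fin m → Set ℂ} {φ : Fin m → Fin (g + 1) → ℂ → ℂ}
    (H : ∀ a, Branches (F.map (σ a)) (V a) (φ a)) {p : ℕ} (hp : 2 ≤ p) :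
    ∃ N₀ : ℕ, ∀ N : ℕ, N₀ ≤ N → N.Coprime p → N.Coprime (NumberField.discr K).natAbs →
      ∀ (L : Type*) [Field L] [NumberField L] [Algebra K L],
      ((Chebyshev.C L N).comp (F.map (algebraMap K L)) - C 2).Splits →
      ∀ s₀ : L →+* ℂ, s₀.comp (algebraMap K L) = σ ⟨0, hm⟩ →
      ∃ (s : Fin m → (L →+* ℂ)) (b : Fin (m * g + 1) → L)
        (Γ : Fin m × Fin g → Torus (POpen (F.map (algebraMap K L)) b) 1),
        s ⟨0, hm⟩ = s₀ ∧
        (∀ x, (Chebyshev.C L N).eval ((F.map (algebraMap K L)).eval (b x)) = 2) ∧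
        (∀ a, (s a).comp (algebraMap K L) = σ a) ∧
        (∀ x t (y : L), (Γ x).e t (pcst (F.map (algebraMap K L)) b y) = s x.1 y) ∧
        (Matrix.of fun x k : Fin (m * g) =>
          (Γ (finProdFinEquiv.symm x)).reg (symb (pent (F.map (algebraMap K L)) b k.succ 0))).det ≠ 0 := by
  classical
  set J : Fin m → Fin (g + 1) → Fin (g + 1) → ℝ → ℝ := fun a l k => Jm (φ a) l k with hJdef
  obtain ⟨κ, N₁, hN₁⟩ := exists_int (J := J) (fun a l k => continuous_Jm (H a) l k)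
    (fun a l k θ => Pool.Agent.N686.PF.Jm_add_one l k θ)
    (fun a c h => comb_const (H a) (by rwa [natDegree_map]) c h) hp
  refine ⟨N₁ + 1, fun N hN hNp hNd L _ _ _ hsplit s₀ hs₀ => ?_⟩
  have hN0 : 0 < N := by omega
  have : NeZero N := ⟨hN0.ne'⟩
  have hgood := hN₁ N (by omega)
  set T : ℕ := p ^ κ with hT
  have hTN : ∀ a : ℕ, (T ^ a).Coprime N := fun a =>
    Nat.Coprime.pow_left _ (Nat.Coprime.pow_left _ hNp.symm)
  set F' : L[X] := F.map (algebraMap K L) with hF'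
  -- the embeddings
  have hemb : ∀ a : Fin m, ∃ s : L →+* ℂ, s.comp (algebraMap K L) = σ a ∧
      (∀ (y : L) (j : ℤ), s₀ y = uu 1 ((j : ℝ) / N) → s y = uu 1 (((T ^ (a : ℕ) : ℕ) : ℝ) * ((j : ℝ) / N))) ∧
      (a = ⟨0, hm⟩ → s = s₀) := by
    intro a
    by_cases ha : a = ⟨0, hm⟩
    · refine ⟨s₀, by rw [ha, hs₀], fun y j hy => ?_, fun _ => rfl⟩
      rw [ha, pow_zero, Nat.cast_one, one_mul, hy]
    · obtain ⟨s, h1, h2⟩ := exists_embedding' s₀ (σ a) hNd (hTN a)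
      exact ⟨s, h1, h2, fun h => absurd h ha⟩
  choose s hs1 hs2 hs3 using hemb
  have hFs : ∀ a, F'.map (s a) = F.map (σ a) := fun a => by
    rw [hF', Polynomial.map_map, hs1]
  have hFs₀ : F'.map s₀ = F.map (σ ⟨0, hm⟩) := by
    rw [hF', Polynomial.map_map, hs₀]
  have hdeg' : 0 < F'.natDegree := by rwa [hF', natDegree_map]
  have H' : ∀ a, Branches (F'.map (s a)) (V a) (φ a) := fun a => by
    rw [hFs]
    exact H a
  have H₀ : Branches (F'.map s₀) (V ⟨0, hm⟩) (φ ⟨0, hm⟩) := by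
    rw [hFs₀]
    exact H _
  -- the points
  have hpt : ∀ (j : ℤ) (l : Fin (g + 1)), ∃ b : L, s₀ b = φ ⟨0, hm⟩ l (uu 1 ((j : ℝ) / N)) := by
    intro j l
    exact Pool.Agent.N686.PF.exists_point H₀ hdeg' hN0 (κ := 2) (ζ := 1) (by simp) (by
      rw [map_ofNat]
      norm_num) hsplit l (circ_pow_eq_one hN0 j)
  choose b hb using hpt
  have hbinj : ∀ j, Function.Injective (b j) := by
    intro j l l' h1
    have h2 : φ ⟨0, hm⟩ l (uu 1 ((j : ℝ) / N)) = φ ⟨0, hm⟩ l' (uu 1 ((j : ℝ) / N)) := by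
      rw [← hb, ← hb, h1]
    exact (H ⟨0, hm⟩).inj _ ((H _).uu_mem _) h2
  have hFb : ∀ j l, s₀ (F'.eval (b j l)) = uu 1 ((j : ℝ) / N) := fun j l => by
    have h1 : (F'.map s₀).eval (s₀ (b j l)) = s₀ (F'.eval (b j l)) := by
      rw [eval_map, eval₂_hom]
    rw [← h1, hb, H₀.eval_branch l ((H _).uu_mem _)]
  -- the permutations
  have hperm : ∀ j a, ∃ π : Fin (g + 1) → Fin (g + 1), Function.Bijective π ∧
      ∀ l, s a (b j l) = φ a (π l) (uu 1 (((T : ℕ) : ℝ) ^ (a : ℕ) * ((j : ℝ) / N))) := by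
    intro j a
    refine exists_perm' (H a) (x := fun l => s a (b j l)) ((s a).injective.comp (hbinj j)) fun l => ?_
    have h1 : (F.map (σ a)).eval (s a (b j l)) = s a (F'.eval (b j l)) := by
      rw [← hFs a, eval_map, eval₂_hom]
    rw [h1, hs2 a _ j (hFb j l), Nat.cast_pow]
  choose π hπ1 hπ2 using hperm
  set e : Fin m × Fin g ≃ Fin (m * g) := finProdFinEquiv with he
  set v : ℤ × Fin (g + 1) → Fin (m * g) → ℝ := fun x y =>
    J (e.symm y).1 (e.symm y).2.succ (π x.1 (e.symm y).1 x.2)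
      (((T : ℕ) : ℝ) ^ ((e.symm y).1 : ℕ) * ((x.1 : ℝ) / N)) with hv
  obtain ⟨β, hβ⟩ := Pool.Agent.N686.PF.exists_det (fun x y => v x y - v (0, 0) y) (fun c hc => by
    by_contra hc0
    have h1 : ∀ x, ∑ y, c y * v x y = ∑ y, c y * v (0, 0) y := by
      intro x
      have h2 := hc x
      simp only [mul_sub, Finset.sum_sub_distrib] at h2
      linarith
    set c' : Fin m → Fin g → ℝ := fun a l => c (e (a, l)) with hc'
    have hc'0 : (c', ∑ y, c y * v (0, 0) y) ≠ (0 : (Fin m → Fin g → ℝ) × ℝ) := by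
      intro h2
      apply hc0
      funext y
      have h3 : c' (e.symm y).1 (e.symm y).2 = 0 := by
        have h4 := congrArg Prod.fst h2
        simp only at h4
        rw [h4]
        rfl
      rw [hc'] at h3
      simp only [Prod.mk.eta, Equiv.apply_symm_apply] at h3
      exact h3
    obtain ⟨j, hj⟩ := hgood _ hc'0
    obtain ⟨k, hk⟩ := hj (π j) (hπ1 j)
    apply hk
    show Lc J c' _ (π j) k = ∑ y, c y * v (0, 0) y
    rw [← h1 (j, k)]
    unfold Lc
    rw [← e.sum_comp, Fintype.sum_prod_type]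
    refine Finset.sum_congr rfl fun a _ => Finset.sum_congr rfl fun l _ => ?_
    simp only [hv, Equiv.symm_apply_apply, hc'])
  -- the points and the loops
  set X : Fin (m * g + 1) → ℤ × Fin (g + 1) := Fin.cons (0, 0) β with hX
  have hb' : ∀ (a : Fin m) (x : Fin (m * g + 1)), s a (b (X x).1 (X x).2) =
      φ a (π (X x).1 a (X x).2) (uu 1 (((T : ℕ) : ℝ) ^ (a : ℕ) * (((X x).1 : ℝ) / N))) := fun a x =>
    hπ2 (X x).1 a (X x).2
  choose Γ hΓ1 hΓ2 using fun x : Fin m × Fin g => exists_loop (H' x.1)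
    (fun y : Fin (m * g + 1) => b (X y).1 (X y).2) (fun y => π (X y).1 x.1 (X y).2)
    (fun y => ((T : ℕ) : ℝ) ^ (x.1 : ℕ) * (((X y).1 : ℝ) / N)) (hb' x.1) x.2.succ
  refine ⟨s, fun y => b (X y).1 (X y).2, Γ, hs3 _ rfl, fun x => ?_, hs1, hΓ1, ?_⟩
  · apply s₀.injective
    have h2 : uu 1 (((X x).1 : ℝ) / N) = circ 1 (((X x).1 : ℝ) / N) + (circ 1 (((X x).1 : ℝ) / N))⁻¹ := rfl
    rw [map_cheb', hFb, h2, Pool.Agent.N686.PF.eval_cheb ℂ _ _ (mul_inv_cancel₀ (circ_ne_zero one_pos _)), inv_pow,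
      circ_pow_eq_one hN0, map_ofNat]
    norm_num
  · have h1 : (Matrix.of fun x k : Fin (m * g) =>
        (Γ (e.symm x)).reg (symb (pent F' (fun y => b (X y).1 (X y).2) k.succ 0))) =
        (-(2 * Real.pi)) • Matrix.of fun x k : Fin (m * g) => v (β k) x - v (0, 0) x := by
      ext x k
      rw [Matrix.of_apply, Matrix.smul_apply, Matrix.of_apply, hΓ2, smul_eq_mul]
      rfl
    rw [h1, Matrix.det_smul]
    exact mul_ne_zero (pow_ne_zero _ (neg_ne_zero.2 (by positivity))) hβ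

end Pool.Agent.N76.IR
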