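import Pool.Agent.N76.IR.Main2

set_option autoImplicit false

/-!
Beilinson's conjecture on regulators (`i = 1`, `m = 0`, `n = 2`): regulators at many infinite places at the same time.

Let `C` be the curve `z + 1/z = F(x)` of genus `g` over a number field `K`, with an arbitrary monic polynomial `F` of
degree `g + 1` with integral coefficients, and let `σ_1, ..., σ_m` be embeddings of `K` in `ℂ` (any number of them,
repetitions are allowed) at which `F` has no critical value in `[-2, 2]`. After a finite extension `L` of `K` there are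
`m g` unramified classes in `K_2` of the curve and embeddings `s_1, ..., s_m` of `L` above `σ_1, ..., σ_m` such that the
regulators of the `m g` classes on `m g` loops, `g` of them over each `s_a`, have a nonvanishing determinant. In
particular integral `K_2 ⊗ ℚ` of the curve over the algebraic closure has infinite rank.
-/

namespace Pool.Agent.N76.IR.ManyPlaces

open Polynomial

open Pool.Agent.TH826.MK (KQ symb Torus Unramified)

open Pool.Agent.TH826.HD (PRing POpen pent toP pcst pDel isDomain_PRing pDel_ne_zero liftP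
  liftP_toP)

open Pool.Agent.Y775.CC (SmoothPts smoothPts exists_branches Branches)

open Pool.Agent.N686.PF

/-- `F` has no critical value in the interval `[-2, 2]` at the complex place `s`. -/
def NoCrit {K : Type*} [Field K] (s : K →+* ℂ) (F : K[X]) : Prop :=
  ∀ x : ℂ, (derivative F).eval₂ s x = 0 → ∀ t : ℝ, |t| ≤ 2 → F.eval₂ s x ≠ t

/-- The symbols `{z, (x - b_k) / (x - b_l)}` are unramified at all discrete valuations of the function field `M` of the
curve `z² - F(x) z + 1 = 0`. -/
def UnramifiedSymbols.{u, w} {L : Type u} [Field L] {r : ℕ} (F : L[X]) (b : Fin r → L) : Prop :=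
  ∀ (M : Type w) [Field M] [Algebra (PRing F) M] [IsFractionRing (PRing F) M],
    ∃ f : POpen F b →+* M, (∀ a : PRing F, f (toP F b a) = algebraMap (PRing F) M a) ∧
      ∀ k l, KQ.map 2 f (symb (pent F b k l)) ∈ Unramified M 2

/-- For each `a = 1, ..., m` there are `g` loops in the complex points over the embedding `s a` of the open part
`∏ (x - b_k) ≠ 0` of the curve `z² - F(x) z + 1 = 0`, such that the determinant of the regulators, on all these `m g`
loops, of the `m g` symbols `{z, (x - b_k) / (x - b_0)}`, `1 ≤ k ≤ m g`, does not vanish. -/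
def IndependentRegulators {L : Type*} [Field L] {m g : ℕ} (s : Fin m → (L →+* ℂ)) (F : L[X])
    (b : Fin (m * g + 1) → L) : Prop :=
  ∃ Γ : Fin m × Fin g → Torus (POpen F b) 1,
    (∀ a l θ (y : L), (Γ (a, l)).e θ (pcst F b y) = s a y) ∧
    (Matrix.of fun x k : Fin (m * g) =>
      (Γ (finProdFinEquiv.symm x)).reg (symb (pent F b k.succ 0))).det ≠ 0

/-- Solutions of `C_N(F(b)) = 2` are special points. -/
theorem special_of_eval {L : Type*} [Field L] (s : L →+* ℂ) {N : ℕ} (hN : 0 < N) {y : L}
    (hy : (Chebyshev.C L N).eval y = 2) :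
    ∃ (ζ : ℂ) (k : ℕ), k ≠ 0 ∧ ζ ^ k = 1 ∧ s y = ζ + ζ⁻¹ := by
  obtain ⟨η, hη⟩ : ∃ η : ℂ, η ^ 2 - s y * η + 1 = 0 := by
    obtain ⟨d, hd⟩ := IsAlgClosed.exists_pow_nat_eq ((s y) ^ 2 - 4) two_pos
    exact ⟨(s y + d) / 2, by linear_combination hd / 4⟩
  have hη0 : η ≠ 0 := by
    rintro rfl
    norm_num at hη
  have hsy : s y = η + η⁻¹ := by
    field_simp
    linear_combination -hη
  have h3 : η ^ N + (η⁻¹) ^ N = 2 := by
    rw [← eval_cheb ℂ η η⁻¹ (mul_inv_cancel₀ hη0), ← hsy, ← map_ofNat s 2, ← hy, ← Chebyshev.map_C s,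
      eval_map, eval₂_hom]
  have h4 : (η ^ N - 1) * (η ^ N - 1) = 0 := by
    have h5 : η ^ N * (η⁻¹) ^ N = 1 := by rw [← mul_pow, mul_inv_cancel₀ hη0, one_pow]
    linear_combination η ^ N * h3 - h5
  refine ⟨η, N, hN.ne', ?_, hsy⟩
  rcases mul_eq_zero.1 h4 with h5 | h5 <;> exact sub_eq_zero.1 h5

/-- Let `K` be a number field and `F` *any* monic polynomial of degree `g + 1` whose coefficients are algebraic integers
of `K`. Let `σ_1, ..., σ_m` be embeddings of `K` in `ℂ`, `m ≥ 1` arbitrary, repetitions allowed, such that `F` has no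
critical value in `[-2, 2]` at `σ_1, ..., σ_m`, and let `p ≥ 2`. There is an `N₀` with the following properties. Let
`N ≥ N₀` be prime to `p` and to the discriminant of `K`, and let `L` be a number field over `K` which contains all
roots `b` of the polynomial `C_N(F(x)) - 2`, that is, all `b` with `F(b) = η + 1/η`, `η ^ N = 1` (every number field over
`K` has a finite extension with this property). Let `C` be the curve `z + 1/z = F(x)` over `L`. Its coordinate ring
`PRing F` is a domain, and for every embedding `s_1` of `L` above `σ_1` there are embeddings `s_2, ..., s_m` of `L` above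
`σ_2, ..., σ_m`, over which the complex points of `C` (of genus `g`) are smooth, and roots `b_0, ..., b_{mg}`, such that
the symbols `{z, (x - b_k) / (x - b_l)}` are unramified at all discrete valuations of the function field of `C`, and the
determinant of the regulators of the `m g` symbols `{z, (x - b_k) / (x - b_0)}` on `m g` loops, `g` in the complex points
of `C` over each of `s_1, ..., s_m`, does not vanish. -/
theorem result.{u, v, w} (g m : ℕ) (hm : 0 < m) (K : Type u) [Field K] [NumberField K] (F : K[X])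
    (hF1 : F.Monic) (hdeg : F.natDegree = g + 1) (hF : ∀ i, IsIntegral ℤ (F.coeff i))
    (σ : Fin m → (K →+* ℂ)) (hσ : ∀ a, NoCrit (σ a) F) (p : ℕ) (hp : 2 ≤ p) :
    ∃ N₀ : ℕ, ∀ N : ℕ, N₀ ≤ N → N.Coprime p → N.Coprime (NumberField.discr K).natAbs →
      ∀ (L : Type v) [Field L] [NumberField L] [Algebra K L],
      ((Chebyshev.C L N).comp (F.map (algebraMap K L)) - C 2).Splits →
      IsDomain (PRing (F.map (algebraMap K L))) ∧
      ∀ s₁ : L →+* ℂ, s₁.comp (algebraMap K L) = σ ⟨0, hm⟩ →
      ∃ (s : Fin m → (L →+* ℂ)) (b : Fin (m * g + 1) → L),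
        s ⟨0, hm⟩ = s₁ ∧
        (∀ a, (s a).comp (algebraMap K L) = σ a) ∧
        (∀ a, SmoothPts (s a) (F.map (algebraMap K L))) ∧
        (∀ k, (Chebyshev.C L N).eval ((F.map (algebraMap K L)).eval (b k)) = 2) ∧
        UnramifiedSymbols.{v, w} (F.map (algebraMap K L)) b ∧
        IndependentRegulators s (F.map (algebraMap K L)) b := by
  have hbr : ∀ a, ∃ (V : Set ℂ) (φ : Fin (g + 1) → ℂ → ℂ), Branches (F.map (σ a)) V φ := by
    intro a
    refine exists_branches (G := F.map (σ a)) (hF1.map (σ a)) (Nat.succ_pos g)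
      (by rw [hF1.natDegree_map, hdeg]) ?_
    intro x hx t ht
    rw [eval_map]
    refine hσ a x ?_ t ht
    rw [← eval_map, ← derivative_map]
    exact hx
  choose V φ H using hbr
  have hd0 : 0 < F.natDegree := by
    rw [hdeg]
    exact Nat.succ_pos g
  obtain ⟨N₀, hN₀⟩ := Pool.Agent.N76.IR.main2 hm hd0 σ H hp
  refine ⟨N₀ + 1, fun N hN hNp hNd L _ _ _ hsplit => ?_⟩
  have hN1 : 0 < N := by omega
  have hmL : (F.map (algebraMap K L)).Monic := hF1.map _
  have hdL : 0 < (F.map (algebraMap K L)).natDegree := by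
    rw [hF1.natDegree_map, hdeg]
    exact Nat.succ_pos g
  have hFL : ∀ i, IsIntegral ℤ ((F.map (algebraMap K L)).coeff i) := fun i => by
    rw [coeff_map]
    exact (hF i).map ((algebraMap K L).toIntAlgHom)
  refine ⟨isDomain_PRing hdL, fun s₁ hs₁ => ?_⟩
  obtain ⟨s, b, Γ, hs0, hb, hs, hΓ, hdet⟩ := hN₀ N (by omega) hNp hNd L hsplit s₁ hs₁
  refine ⟨s, b, hs0, hs, fun a => ?_, hb, ?_, Γ, fun a l θ y => hΓ (a, l) θ y, hdet⟩
  · refine smoothPts fun x hx t ht => ?_
    have h1 := hσ a x (by
      rw [derivative_map, eval₂_map, hs a] at hx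
      exact hx) t ht
    rwa [eval₂_map, hs a]
  · intro M _ _ _
    have hinj : Function.Injective (algebraMap (PRing (F.map (algebraMap K L))) M) :=
      IsFractionRing.injective _ _
    have hne : algebraMap (PRing (F.map (algebraMap K L))) M
        (pDel (F.map (algebraMap K L)) b) ≠ 0 := by
      rw [Ne, map_eq_zero_iff _ hinj]
      exact pDel_ne_zero b
    have hspec : ∀ k, ∃ (ζ : ℂ) (n : ℕ), n ≠ 0 ∧ ζ ^ n = 1 ∧
        s₁ ((F.map (algebraMap K L)).eval (b k)) = ζ + ζ⁻¹ := fun k => special_of_eval s₁ hN1 (hb k)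
    have hint : ∀ k, IsIntegral ℤ (b k) := fun k => by
      obtain ⟨ξ, n, hn, h1, h2⟩ := hspec k
      exact isIntegral_special s₁ hmL hdL hFL hn h1 h2
    exact ⟨liftP (algebraMap (PRing (F.map (algebraMap K L))) M) hne, fun a => liftP_toP _ _ _,
      fun k l => Pool.Agent.TH826.UH.symb_mem_unramified _ s₁ hFL hint k l hspec⟩

end Pool.Agent.N76.IR.ManyPlaces
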